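import Mathlib

/-!
# The coefficients of `∏ (z / q + j)` in the basis of the rising factorials
-/

set_option autoImplicit false

namespace Pool.Agent.H61L

/-- the coefficient of `z (z + 1) ⋯ (z + k - 1) / k!` in `∏_{j < n} (z / q + j)` -/
noncomputable def cf (q : ℝ) : ℕ → ℕ → ℝ
  | 0, k => if k = 0 then 1 else 0
  | n + 1, k => (k / q) * cf q n (k - 1) + (n - k / q) * cf q n k

/-- the coefficient of `z (z + 1) ⋯ (z + k - 1) / k!` in
`∏_{j < n} (z / q + j) - ∏_{j < n} ((z - w) / q + j)` -/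
noncomputable def ca (q : ℝ) (w : ℝ) : ℕ → ℕ → ℝ
  | 0, _ => 0
  | n + 1, k => (k / q) * ca q w n (k - 1) + (n - w / q - k / q) * ca q w n k + (w / q) * cf q n k

variable {q : ℝ}

lemma cf_zero_of_lt : ∀ n k : ℕ, n < k → cf q n k = 0 := by
  intro n
  induction n with
  | zero =>
    intro k hk
    rw [cf, if_neg (by omega)]
  | succ n ih =>
    intro k hk
    rw [cf, ih k (by omega), ih (k - 1) (by omega)]
    ring

lemma cf_zero (n : ℕ) : cf q (n + 1) 0 = n * cf q n 0 := by
  rw [cf]
  simp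

lemma cf_succ_zero : ∀ n : ℕ, cf q (n + 1) 0 = 0 := by
  intro n
  induction n with
  | zero => rw [cf_zero]; simp
  | succ n ih => rw [cf_zero, ih, mul_zero]

lemma cf_nonneg (hq : 1 ≤ q) : ∀ n k : ℕ, 0 ≤ cf q n k := by
  intro n
  induction n with
  | zero =>
    intro k
    rw [cf]
    split_ifs <;> norm_num
  | succ n ih =>
    intro k
    rw [cf]
    have hq0 : 0 < q := by linarith
    rcases Nat.lt_or_ge n k with h | h
    · rw [cf_zero_of_lt n k h, mul_zero, add_zero]
      exact mul_nonneg (by positivity) (ih _)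
    · refine add_nonneg (mul_nonneg (by positivity) (ih _)) (mul_nonneg ?_ (ih _))
      have h1 : (k : ℝ) / q ≤ k := div_le_self (by positivity) hq
      have h2 : (k : ℝ) ≤ n := by exact_mod_cast h
      linarith

lemma ca_zero_of_le (w : ℝ) : ∀ n k : ℕ, n ≤ k → ca q w n k = 0 := by
  intro n
  induction n with
  | zero =>
    intro k _
    rw [ca]
  | succ n ih =>
    intro k hk
    rw [ca, ih k (by omega), ih (k - 1) (by omega), cf_zero_of_lt n k (by omega)]
    ring

lemma ca_zero (n k : ℕ) : ca q 0 n k = 0 := by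
  induction n generalizing k with
  | zero => rw [ca]
  | succ n ih => rw [ca, ih, ih]; ring

lemma ca_nonneg (hq : 1 ≤ q) {w : ℝ} (hw : 0 ≤ w) (hwq : w ≤ q) : ∀ n k : ℕ, 0 ≤ ca q w n k := by
  intro n
  have hq0 : 0 < q := by linarith
  induction n with
  | zero =>
    intro k
    rw [ca]
  | succ n ih =>
    intro k
    rw [ca]
    have h3 : 0 ≤ w / q * cf q n k := mul_nonneg (by positivity) (cf_nonneg hq _ _)
    have h4 : 0 ≤ (k : ℝ) / q * ca q w n (k - 1) := mul_nonneg (by positivity) (ih _)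
    rcases Nat.lt_or_ge k n with h | h
    · have h1 : (k : ℝ) / q ≤ k := div_le_self (by positivity) hq
      have h2 : (k : ℝ) + 1 ≤ n := by exact_mod_cast h
      have h5 : w / q ≤ 1 := by rwa [div_le_one hq0]
      have h6 : 0 ≤ ((n : ℝ) - w / q - k / q) * ca q w n k := mul_nonneg (by linarith) (ih _)
      linarith
    · rw [ca_zero_of_le w n k h, mul_zero, add_zero]
      linarith

lemma ca_step (hq : q ≠ 0) (w : ℝ) : ∀ n k : ℕ,
    ca q (w + 1) n k = ca q w n k - ca q w n (k + 1) + cf q n (k + 1) := by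
  intro n
  induction n with
  | zero =>
    intro k
    rw [ca, ca, ca, cf]
    simp
  | succ n ih =>
    intro k
    rw [ca, ca, ca, cf]
    rcases k with _ | k
    · simp only [Nat.cast_zero, zero_div, zero_mul, Nat.zero_sub, zero_add, Nat.add_sub_cancel,
        Nat.cast_one]
      rw [ih 0]
      field_simp
      ring
    · simp only [Nat.add_sub_cancel]
      rw [ih k, ih (k + 1)]
      push_cast
      field_simp
      ring

lemma ca_q (hq : q ≠ 0) : ∀ n k : ℕ, ca q q (n + 1) k = (n + 1) * cf q n k := by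
  intro n
  induction n with
  | zero =>
    intro k
    rw [ca, ca, ca, div_self hq]
    simp
  | succ n ih =>
    intro k
    rw [ca, ih, ih, cf, div_self hq]
    push_cast
    ring

open Finset in
/-- The inequality for one block. -/
lemma block {m : ℕ} {Q : ℕ} (hQ : 1 ≤ Q) (C : ℕ → ℕ → ℝ)
    (h1 : ∀ k τ, k < m → C (k + 1) (τ + 1) + C k τ ≤ C (k + 1) τ)
    (h0 : ∀ τ, C 0 (τ + 1) ≤ C 0 τ) (τ₀ : ℕ) :
    ∑ v ∈ range Q, ∑ k ∈ range (m + 1), cf Q (m + 1) (k + 1) * C k (τ₀ + v) ≤
      (m + 1) * ∑ k ∈ range (m + 1), cf Q m k * C k τ₀ := by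
  have hQ1 : (1 : ℝ) ≤ Q := by exact_mod_cast hQ
  have hQ0 : (Q : ℝ) ≠ 0 := by positivity
  have key : ∀ w, w ≤ Q →
      ∑ v ∈ range w, ∑ k ∈ range (m + 1), cf Q (m + 1) (k + 1) * C k (τ₀ + (Q - 1 - v)) ≤
      ∑ k ∈ range (m + 1), ca Q w (m + 1) k * C k (τ₀ + (Q - w)) := by
    intro w
    induction w with
    | zero =>
      intro _
      simp [ca_zero]
    | succ w ih =>
      intro hw
      rw [sum_range_succ]
      have e1 := ih (by omega)
      obtain ⟨T, hT⟩ : ∃ T, T = τ₀ + (Q - 1 - w) := ⟨_, rfl⟩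
      have hT1 : τ₀ + (Q - w) = T + 1 := by omega
      have hT2 : τ₀ + (Q - (w + 1)) = T := by omega
      rw [hT1] at e1
      rw [hT2, ← hT]
      have hw0 : (0 : ℝ) ≤ w := by positivity
      have hwQ : (w : ℝ) ≤ Q := by exact_mod_cast (by omega : w ≤ Q)
      have ha := ca_nonneg hQ1 hw0 hwQ (m + 1)
      -- `∑ a_k(w) C_k(T+1) ≤ ∑ (a_k(w) - a_{k+1}(w)) C_k(T)`
      have e2 : ∑ k ∈ range (m + 1), ca Q w (m + 1) k * C k (T + 1) ≤
          ∑ k ∈ range (m + 1), (ca Q w (m + 1) k - ca Q w (m + 1) (k + 1)) * C k T := by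
        have e3 : ∑ k ∈ range (m + 1), (ca Q w (m + 1) k - ca Q w (m + 1) (k + 1)) * C k T =
            ca Q w (m + 1) 0 * C 0 T +
              ∑ k ∈ range m, ca Q w (m + 1) (k + 1) * (C (k + 1) T - C k T) := by
          have e4 : ∑ k ∈ range (m + 1), (ca Q w (m + 1) k - ca Q w (m + 1) (k + 1)) * C k T =
              ∑ k ∈ range (m + 1), ca Q w (m + 1) k * C k T -
              ∑ k ∈ range (m + 1), ca Q w (m + 1) (k + 1) * C k T := by
            rw [← sum_sub_distrib]
            exact sum_congr rfl fun k _ => by ring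
          rw [e4, sum_range_succ', sum_range_succ (fun k => ca Q w (m + 1) (k + 1) * C k T),
            ca_zero_of_le (q := Q) w (m + 1) (m + 1) le_rfl]
          have e5 : ∑ k ∈ range m, ca Q w (m + 1) (k + 1) * (C (k + 1) T - C k T) =
              ∑ k ∈ range m, ca Q w (m + 1) (k + 1) * C (k + 1) T -
              ∑ k ∈ range m, ca Q w (m + 1) (k + 1) * C k T := by
            rw [← sum_sub_distrib]
            exact sum_congr rfl fun k _ => by ring
          rw [e5]
          ring
        rw [e3, sum_range_succ']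
        have e6 : ca Q w (m + 1) 0 * C 0 (T + 1) ≤ ca Q w (m + 1) 0 * C 0 T :=
          mul_le_mul_of_nonneg_left (h0 T) (ha 0)
        have e7 : ∑ k ∈ range m, ca Q w (m + 1) (k + 1) * C (k + 1) (T + 1) ≤
            ∑ k ∈ range m, ca Q w (m + 1) (k + 1) * (C (k + 1) T - C k T) := by
          refine sum_le_sum fun k hk => mul_le_mul_of_nonneg_left ?_ (ha _)
          have := h1 k T (mem_range.1 hk)
          linarith
        linarith
      have e8 : ∑ k ∈ range (m + 1), ca Q ((w + 1 : ℕ) : ℝ) (m + 1) k * C k T =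
          ∑ k ∈ range (m + 1), (ca Q w (m + 1) k - ca Q w (m + 1) (k + 1)) * C k T +
          ∑ k ∈ range (m + 1), cf Q (m + 1) (k + 1) * C k T := by
        rw [← sum_add_distrib]
        refine sum_congr rfl fun k _ => ?_
        rw [Nat.cast_succ, ca_step hQ0]
        ring
      rw [e8]
      linarith
  have h2 := key Q le_rfl
  rw [Nat.sub_self, Nat.add_zero] at h2
  have h3 : ∑ v ∈ range Q, ∑ k ∈ range (m + 1), cf Q (m + 1) (k + 1) * C k (τ₀ + (Q - 1 - v)) =
      ∑ v ∈ range Q, ∑ k ∈ range (m + 1), cf Q (m + 1) (k + 1) * C k (τ₀ + v) :=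
    sum_range_reflect (fun v => ∑ k ∈ range (m + 1), cf Q (m + 1) (k + 1) * C k (τ₀ + v)) Q
  rw [h3] at h2
  refine h2.trans (le_of_eq ?_)
  rw [mul_sum]
  refine sum_congr rfl fun k _ => ?_
  rw [ca_q hQ0]
  ring

/-- asymptotics of the coefficients -/
lemma cf_tendsto (c : ℕ) (n k : ℕ) : Filter.Tendsto
    (fun s : ℕ => ((s + c : ℕ) : ℝ) ^ k * cf ((s + c : ℕ) : ℝ) n k) Filter.atTop
    (nhds ((Nat.factorial k : ℝ) * ((ascPochhammer ℕ n).coeff k : ℝ))) := by
  induction n generalizing k with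
  | zero =>
    simp only [cf, ascPochhammer_zero, Polynomial.coeff_one]
    rcases k with _ | k
    · simp
    · simp
  | succ n ih =>
    have hinv : Filter.Tendsto (fun s : ℕ => (1 : ℝ) / ((s + c : ℕ) : ℝ)) Filter.atTop (nhds 0) := by
      have h := (tendsto_one_div_atTop_nhds_zero_nat (𝕜 := ℝ)).comp
        (Filter.tendsto_add_atTop_nat c)
      exact h
    rw [ascPochhammer_succ_right]
    rcases k with _ | k
    · have h1 : Filter.Tendsto (fun s : ℕ => (n : ℝ) *
          (((s + c : ℕ) : ℝ) ^ 0 * cf ((s + c : ℕ) : ℝ) n 0)) Filter.atTop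
          (nhds ((n : ℝ) * ((Nat.factorial 0 : ℝ) * ((ascPochhammer ℕ n).coeff 0 : ℝ)))) :=
        (ih 0).const_mul _
      have h2 : ((ascPochhammer ℕ n * (Polynomial.X + (n : Polynomial ℕ))).coeff 0 : ℝ) =
          (n : ℝ) * ((ascPochhammer ℕ n).coeff 0 : ℝ) := by
        rw [Polynomial.mul_coeff_zero]
        simp
        ring
      rw [h2]
      refine (h1.congr fun s => ?_).trans (le_of_eq ?_)
      · rw [cf_zero]; ring
      · congr 1; ring
    · have h1 := (ih k).const_mul ((k : ℝ) + 1)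
      have h2 := (((hinv.const_mul ((k : ℝ) + 1)).const_sub (n : ℝ)).mul (ih (k + 1)))
      have h3 := h1.add h2
      have h4 : ((ascPochhammer ℕ n * (Polynomial.X + (n : Polynomial ℕ))).coeff (k + 1) : ℝ) =
          ((ascPochhammer ℕ n).coeff k : ℝ) + (n : ℝ) * ((ascPochhammer ℕ n).coeff (k + 1) : ℝ) := by
        rw [mul_add, Polynomial.coeff_add, Polynomial.coeff_mul_X, ← Polynomial.C_eq_natCast,
          Polynomial.coeff_mul_C]
        push_cast
        ring
      rw [h4]
      refine (Filter.Tendsto.congr' ?_ h3).trans (le_of_eq ?_)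
      · filter_upwards [Filter.eventually_ge_atTop 1] with s hs
        rw [cf]
        have : ((s + c : ℕ) : ℝ) ≠ 0 := by positivity
        simp only [Nat.add_sub_cancel]
        push_cast at this ⊢
        field_simp
        ring
      · congr 1
        rw [Nat.factorial_succ]
        push_cast
        ring

end Pool.Agent.H61L
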