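import Mathlib
import Pool.Agent.H61L.Coef

/-!
# The inequality for strongly stable monomial ideals
-/

set_option autoImplicit false

namespace Pool.Agent.H61L

open Finset

/-- exponents -/
abbrev Ex (n : ℕ) := Fin n → ℕ

/-- products of `q` elements of `M` -/
def Pw {n : ℕ} (q : ℕ) (M : Set (Ex n)) : Set (Ex n) :=
  {z | ∃ s : Multiset (Ex n), s.card = q ∧ (∀ u ∈ s, u ∈ M) ∧ s.sum ≤ z}

/-- the number of exponents outside `A` which involve only the first `k` variables -/
noncomputable def cnt {n : ℕ} (k : ℕ) (A : Set (Ex n)) : ℕ :=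
  {z : Ex n | z ∉ A ∧ ∀ i : Fin n, k ≤ i.val → z i = 0}.ncard

/-- move one unit from `j` to `i` -/
def mv {n : ℕ} (a : Ex n) (i j : Fin n) : Ex n := a + Pi.single i 1 - Pi.single j 1

/-- strongly stable upsets with finite complement -/
structure Good {n : ℕ} (M : Set (Ex n)) : Prop where
  up : ∀ a ∈ M, ∀ b, a ≤ b → b ∈ M
  cofin : Mᶜ.Finite
  stable : ∀ a ∈ M, ∀ i j : Fin n, i < j → 0 < a j → mv a i j ∈ M

lemma mv_apply {n : ℕ} (a : Ex n) (i j : Fin n) (hij : i ≠ j) (l : Fin n) :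
    mv a i j l = if l = i then a i + 1 else if l = j then a j - 1 else a l := by
  unfold mv
  rw [Pi.sub_apply, Pi.add_apply]
  by_cases h1 : l = i
  · subst h1
    simp [Pi.single_eq_of_ne hij]
  · rw [Pi.single_eq_of_ne h1, if_neg h1]
    by_cases h2 : l = j
    · subst h2; simp
    · rw [Pi.single_eq_of_ne h2, if_neg h2]
      omega

lemma mv_add {n : ℕ} (a b : Ex n) (i j : Fin n) (hb : 0 < b j) : mv (a + b) i j = a + mv b i j := by
  funext l
  unfold mv
  simp only [Pi.sub_apply, Pi.add_apply]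
  by_cases h2 : l = j
  · subst h2
    simp only [Pi.single_eq_same]
    omega
  · rw [Pi.single_eq_of_ne h2]
    omega

lemma cnt_finite {n : ℕ} {A : Set (Ex n)} (hA : Aᶜ.Finite) (k : ℕ) :
    {z : Ex n | z ∉ A ∧ ∀ i : Fin n, k ≤ i.val → z i = 0}.Finite :=
  hA.subset fun _ h => h.1

lemma cnt_anti {n : ℕ} {A B : Set (Ex n)} (hA : Aᶜ.Finite) (hAB : A ⊆ B) (k : ℕ) :
    cnt k B ≤ cnt k A :=
  Set.ncard_le_ncard (fun _ h => ⟨fun h' => h.1 (hAB h'), h.2⟩) (cnt_finite hA k)

lemma cnt_full {n : ℕ} (A : Set (Ex n)) : cnt n A = Aᶜ.ncard := by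
  unfold cnt
  congr 1
  ext z
  constructor
  · exact fun h => h.1
  · exact fun h => ⟨h, fun i hi => absurd i.2 (by omega)⟩

lemma Pw_up {n : ℕ} (q : ℕ) (M : Set (Ex n)) : ∀ a ∈ Pw q M, ∀ b, a ≤ b → b ∈ Pw q M := by
  rintro a ⟨s, h1, h2, h3⟩ b hab
  exact ⟨s, h1, h2, h3.trans hab⟩

lemma Pw_add {n : ℕ} {q r : ℕ} {M : Set (Ex n)} {a b : Ex n} (ha : a ∈ Pw q M) (hb : b ∈ Pw r M) :
    a + b ∈ Pw (q + r) M := by
  obtain ⟨s, h1, h2, h3⟩ := ha
  obtain ⟨t, h4, h5, h6⟩ := hb
  refine ⟨s + t, by rw [Multiset.card_add, h1, h4], fun u hu => ?_, ?_⟩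
  · rcases Multiset.mem_add.1 hu with h | h
    · exact h2 u h
    · exact h5 u h
  · rw [Multiset.sum_add]
    exact add_le_add h3 h6

lemma Pw_one {n : ℕ} {M : Set (Ex n)} {a : Ex n} (ha : a ∈ M) : a ∈ Pw 1 M :=
  ⟨{a}, by simp, by simpa using ha, by simp⟩

lemma Pw_zero {n : ℕ} {M : Set (Ex n)} (a : Ex n) : a ∈ Pw 0 M :=
  ⟨0, by simp, by simp, by simp⟩

lemma Pw_mono_left {n : ℕ} {q r : ℕ} (h : r ≤ q) {M : Set (Ex n)} : Pw q M ⊆ Pw r M := by
  rintro a ⟨s, h1, h2, h3⟩
  obtain ⟨t, ht, hts⟩ : ∃ t ≤ s, t.card = r := by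
    refine Quot.inductionOn s (fun l h1 _ _ => ?_) h1 h2 h3
    refine ⟨(l.take r : Multiset (Ex n)), ?_, ?_⟩
    · exact Multiset.coe_le.2 (List.take_sublist r l).subperm
    · have h5 : l.length = q := h1
      simp only [Multiset.coe_card, List.length_take]
      omega
  refine ⟨t, hts, fun u hu => h2 u (Multiset.mem_of_le ht hu), ?_⟩
  obtain ⟨w, rfl⟩ := Multiset.le_iff_exists_add.1 ht
  rw [Multiset.sum_add] at h3
  exact (le_add_of_nonneg_right (by intro i; exact Nat.zero_le _)).trans h3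

lemma Pw_nsmul {n : ℕ} {q : ℕ} {M : Set (Ex n)} {a : Ex n} (ha : a ∈ Pw q M) (r : ℕ) :
    r • a ∈ Pw (r * q) M := by
  induction r with
  | zero => rw [zero_mul]; exact Pw_zero _
  | succ r ih =>
    rw [succ_nsmul, Nat.succ_mul]
    exact Pw_add ih ha

lemma Pw_sum {n : ℕ} {M : Set (Ex n)} {ι : Type*} (s : Finset ι) (z : ι → Ex n) (q : ι → ℕ)
    (h : ∀ i ∈ s, z i ∈ Pw (q i) M) : ∑ i ∈ s, z i ∈ Pw (∑ i ∈ s, q i) M := by
  classical
  induction s using Finset.induction_on with
  | empty => simp only [sum_empty]; exact Pw_zero _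
  | insert a s ha ih =>
    rw [sum_insert ha, sum_insert ha]
    exact Pw_add (h a (mem_insert_self a s)) (ih fun i hi => h i (mem_insert_of_mem hi))

/-- large multiples of the unit vectors are in an upset with finite complement -/
lemma exists_single_mem {n : ℕ} {M : Set (Ex n)} (hc : Mᶜ.Finite) :
    ∃ N : ℕ, ∀ z : Ex n, ∀ i, N ≤ z i → z ∈ M := by
  classical
  obtain ⟨B, hB⟩ : ∃ B : ℕ, ∀ z ∈ hc.toFinset, ∀ i, z i < B := by
    refine ⟨(hc.toFinset.sup fun z => ∑ i, z i) + 1, fun z hz i => ?_⟩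
    have h1 : ∑ i, z i ≤ hc.toFinset.sup fun z => ∑ i, z i :=
      Finset.le_sup (f := fun z : Ex n => ∑ i, z i) hz
    have h2 : z i ≤ ∑ i, z i := Finset.single_le_sum (fun _ _ => Nat.zero_le _) (mem_univ i)
    omega
  refine ⟨B, fun z i hz => ?_⟩
  by_contra h
  have := hB z (by rw [Set.Finite.mem_toFinset]; exact h) i
  omega

lemma finite_box {n : ℕ} (N : ℕ) : {z : Ex n | ∀ i, z i < N}.Finite := by
  have : {z : Ex n | ∀ i, z i < N} ⊆ Set.Iic (fun _ => N) := fun z hz i => (hz i).le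
  exact (Set.finite_Iic _).subset this

lemma Pw_cofin {n : ℕ} {M : Set (Ex n)} (hc : Mᶜ.Finite) (q : ℕ) : (Pw q M)ᶜ.Finite := by
  obtain ⟨N, hN⟩ := exists_single_mem hc
  refine (finite_box (n := n) (q * N)).subset fun z hz i => ?_
  by_contra h
  push Not at h
  apply hz
  have h1 : Pi.single i N ∈ M := hN _ i (by simp)
  have h2 := Pw_nsmul (Pw_one h1) q
  rw [mul_one] at h2
  refine Pw_up q M _ h2 z fun l => ?_
  rw [Pi.smul_apply, smul_eq_mul]
  by_cases hl : l = i
  · subst hl; simpa using h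
  · rw [Pi.single_eq_of_ne hl]; simp

lemma mem_sum_pos {n : ℕ} {s : Multiset (Ex n)} {j : Fin n} (h : 0 < s.sum j) :
    ∃ u ∈ s, 0 < u j := by
  by_contra hcon
  push Not at hcon
  have : s.sum j = 0 := by
    clear h
    induction s using Multiset.induction_on with
    | empty => simp
    | cons a s ih =>
      rw [Multiset.sum_cons, Pi.add_apply, ih fun u hu => hcon u (Multiset.mem_cons_of_mem hu)]
      have := hcon a (Multiset.mem_cons_self a s)
      omega
  omega

lemma Good.pw {n : ℕ} {M : Set (Ex n)} (hM : Good M) (q : ℕ) : Good (Pw q M) := by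
  classical
  refine ⟨Pw_up q M, Pw_cofin hM.cofin q, ?_⟩
  rintro a ⟨s, h1, h2, h3⟩ i j hij haj
  by_cases h : 0 < s.sum j
  · obtain ⟨u, hu, huj⟩ := mem_sum_pos h
    refine ⟨mv u i j ::ₘ s.erase u, ?_, ?_, ?_⟩
    · rw [Multiset.card_cons, Multiset.card_erase_add_one hu, h1]
    · intro v hv
      rcases Multiset.mem_cons.1 hv with rfl | hv
      · exact hM.stable u (h2 u hu) i j hij huj
      · exact h2 v (Multiset.mem_of_mem_erase hv)
    · rw [Multiset.sum_cons, add_comm, ← mv_add _ _ _ _ huj, add_comm, ← Multiset.sum_cons,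
        Multiset.cons_erase hu]
      intro l
      unfold mv
      simp only [Pi.sub_apply, Pi.add_apply]
      exact Nat.sub_le_sub_right (Nat.add_le_add_right (h3 l) _) _
  · refine ⟨s, h1, h2, fun l => ?_⟩
    rw [mv_apply a i j hij.ne]
    have h6 : s.sum j = 0 := by omega
    split_ifs with h4 h5
    · subst h4; exact (h3 _).trans (Nat.le_succ _)
    · subst h5; rw [h6]; exact Nat.zero_le _
    · exact h3 l

/-- the slice at height `t` of the first variable -/
def slice {m : ℕ} (A : Set (Ex (m + 1))) (t : ℕ) : Set (Ex m) := {y | (Fin.cons t y : Ex (m + 1)) ∈ A}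

lemma cons_le_cons {m : ℕ} {s t : ℕ} {y z : Ex m} (h : s ≤ t) (h' : y ≤ z) :
    (Fin.cons s y : Ex (m + 1)) ≤ Fin.cons t z := by
  intro i
  refine Fin.cases ?_ (fun i => ?_) i
  · simpa using h
  · simpa using h' i

lemma cons_injective {m : ℕ} (t : ℕ) :
    Function.Injective fun y : Ex m => (Fin.cons t y : Ex (m + 1)) := by
  intro y z h
  funext i
  have := congrFun h i.succ
  simpa using this

lemma slice_cofin {m : ℕ} {A : Set (Ex (m + 1))} (hA : Aᶜ.Finite) (t : ℕ) : (slice A t)ᶜ.Finite := by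
  have : (slice A t)ᶜ = (fun y : Ex m => (Fin.cons t y : Ex (m + 1))) ⁻¹' Aᶜ := rfl
  rw [this]
  exact hA.preimage (cons_injective t).injOn

lemma Good.slice {m : ℕ} {A : Set (Ex (m + 1))} (hA : Good A) (t : ℕ) : Good (slice A t) := by
  refine ⟨fun a ha b hab => hA.up _ ha _ (cons_le_cons le_rfl hab), slice_cofin hA.cofin t, ?_⟩
  intro a ha i j hij haj
  have h := hA.stable _ ha i.succ j.succ (Fin.succ_lt_succ_iff.2 hij) (by simpa using haj)
  have e : mv (Fin.cons t a : Ex (m + 1)) i.succ j.succ = Fin.cons t (mv a i j) := by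
    funext l
    rw [mv_apply _ _ _ (Fin.succ_injective _ |>.ne hij.ne)]
    refine Fin.cases ?_ (fun l => ?_) l
    · simp [(Fin.succ_ne_zero _).symm]
    · simp only [Fin.succ_inj, Fin.cons_succ]
      rw [mv_apply _ _ _ hij.ne]
  rw [e] at h
  exact h

lemma Pw_slice {m : ℕ} {M : Set (Ex (m + 1))} (q t : ℕ) :
    Pw q (slice M t) ⊆ slice (Pw q M) (q * t) := by
  rintro y ⟨s, h1, h2, h3⟩
  refine ⟨s.map fun y => (Fin.cons t y : Ex (m + 1)), by rw [Multiset.card_map, h1], ?_, ?_⟩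
  · intro u hu
    obtain ⟨v, hv, rfl⟩ := Multiset.mem_map.1 hu
    exact h2 v hv
  · have e : (s.map fun y => (Fin.cons t y : Ex (m + 1))).sum = Fin.cons (s.card * t) s.sum := by
      clear h1 h2 h3
      induction s using Multiset.induction_on with
      | empty =>
        simp only [Multiset.map_zero, Multiset.sum_zero, Multiset.card_zero, zero_mul]
        funext i
        refine Fin.cases ?_ (fun i => ?_) i <;> simp
      | cons a s ih =>
        rw [Multiset.map_cons, Multiset.sum_cons, ih, Multiset.card_cons, Multiset.sum_cons]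
        funext i
        refine Fin.cases ?_ (fun i => ?_) i
        · simp; ring
        · simp
    rw [e, h1]
    exact cons_le_cons le_rfl h3

/-- the fundamental recursion -/
lemma cnt_rec {m : ℕ} {A : Set (Ex (m + 1))} (hA : Good A) (k t : ℕ) (hk : k < m) :
    cnt (k + 1) (slice A (t + 1)) + cnt k (slice A t) ≤ cnt (k + 1) (slice A t) := by
  classical
  let j : Fin m := ⟨k, hk⟩
  have hfin : ∀ t k, {z : Ex m | z ∉ slice A t ∧ ∀ i : Fin m, k ≤ i.val → z i = 0}.Finite :=
    fun t k => cnt_finite (slice_cofin hA.cofin t) k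
  have hinj : Function.Injective fun y : Ex m => y + Pi.single j 1 := add_left_injective _
  have e1 : cnt (k + 1) (slice A (t + 1)) = ((fun y : Ex m => y + Pi.single j 1) ''
      {z : Ex m | z ∉ slice A (t + 1) ∧ ∀ i : Fin m, k + 1 ≤ i.val → z i = 0}).ncard := by
    rw [Set.ncard_image_of_injective _ hinj]
    rfl
  rw [e1]
  unfold cnt
  rw [← Set.ncard_union_eq ?_ ((hfin _ _).image _) (hfin _ _)]
  · refine Set.ncard_le_ncard ?_ (hfin _ _)
    rintro z (⟨y, ⟨hy1, hy2⟩, rfl⟩ | ⟨h1, h2⟩)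
    · refine ⟨fun h => hy1 ?_, fun i hi => ?_⟩
      · have h3 := hA.stable _ h 0 j.succ (Fin.succ_pos _) (by simp)
        have e : mv (Fin.cons t (y + Pi.single j 1) : Ex (m + 1)) 0 j.succ = Fin.cons (t + 1) y := by
          funext l
          rw [mv_apply _ _ _ (Fin.succ_ne_zero _).symm]
          refine Fin.cases ?_ (fun l => ?_) l
          · simp
          · simp only [Fin.succ_ne_zero, if_false, Fin.succ_inj, Fin.cons_succ]
            split_ifs with h
            · subst h; simp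
            · simp [Pi.single_eq_of_ne h]
        rw [e] at h3
        exact h3
      · have hij : i ≠ j := by
          rintro rfl
          simp [j] at hi
        show y i + (Pi.single j 1 : Ex m) i = 0
        rw [hy2 i hi, Pi.single_eq_of_ne hij, add_zero]
    · exact ⟨h1, fun i hi => h2 i (by omega)⟩
  · rw [Set.disjoint_left]
    rintro z ⟨y, -, rfl⟩ ⟨-, h2⟩
    have := h2 j le_rfl
    simp at this

lemma cnt_slice_anti {m : ℕ} {A : Set (Ex (m + 1))} (hA : Good A) (k t : ℕ) :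
    cnt k (slice A (t + 1)) ≤ cnt k (slice A t) :=
  cnt_anti (slice_cofin hA.cofin t)
    (fun _ hy => hA.up _ hy _ (cons_le_cons (Nat.le_succ t) le_rfl)) k

/-- counting by slices -/
lemma cnt_eq_sum {m : ℕ} {A : Set (Ex (m + 1))} (hA : Aᶜ.Finite) (k T : ℕ)
    (hT : ∀ z : Ex (m + 1), T ≤ z 0 → z ∈ A) :
    cnt (k + 1) A = ∑ t ∈ range T, cnt k (slice A t) := by
  classical
  have hfin : ∀ t k, {z : Ex m | z ∉ slice A t ∧ ∀ i : Fin m, k ≤ i.val → z i = 0}.Finite :=
    fun t k => cnt_finite (slice_cofin hA t) k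
  have e1 : {z : Ex (m + 1) | z ∉ A ∧ ∀ i : Fin (m + 1), k + 1 ≤ i.val → z i = 0} =
      ((range T).biUnion fun t => ((hfin t k).toFinset.image
        fun y => (Fin.cons t y : Ex (m + 1))) : Finset (Ex (m + 1))) := by
    ext z
    simp only [Set.mem_ofPred_eq, coe_biUnion, coe_image, Set.Finite.coe_toFinset, Set.mem_iUnion,
      Set.mem_image, mem_coe, mem_range]
    constructor
    · rintro ⟨h1, h2⟩
      refine ⟨z 0, ?_, Fin.tail z, ⟨?_, fun i hi => ?_⟩, Fin.cons_self_tail z⟩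
      · by_contra h
        exact h1 (hT z (by omega))
      · show ¬ (Fin.cons (z 0) (Fin.tail z) : Ex (m + 1)) ∈ A
        rw [Fin.cons_self_tail]
        exact h1
      · exact h2 i.succ (by simp; omega)
    · rintro ⟨t, ht, y, ⟨h1, h2⟩, rfl⟩
      refine ⟨h1, fun i hi => ?_⟩
      revert hi
      refine Fin.cases ?_ (fun i => ?_) i
      · intro hi; simp at hi
      · intro hi
        rw [Fin.cons_succ]
        exact h2 i (by simp at hi; omega)
  unfold cnt
  rw [e1, Set.ncard_coe_finset, card_biUnion]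
  · refine sum_congr rfl fun t _ => ?_
    rw [card_image_of_injective _ (cons_injective t), Set.ncard_eq_toFinset_card _ (hfin t k)]
  · intro s _ t _ hst
    rw [Function.onFun, disjoint_left]
    intro z hz hz'
    obtain ⟨y, -, rfl⟩ := mem_image.1 hz
    obtain ⟨y', -, h⟩ := mem_image.1 hz'
    have := congrFun h 0
    simp at this
    exact hst this.symm

lemma sum_blocks (g : ℕ → ℝ) (q T : ℕ) :
    ∑ τ ∈ range (q * T), g τ = ∑ t ∈ range T, ∑ v ∈ range q, g (q * t + v) := by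
  induction T with
  | zero => simp
  | succ T ih => rw [Nat.mul_succ, sum_range_add, ih, sum_range_succ]

/-- The combinatorial inequality. -/
theorem comb (Q : ℕ) (hQ : 1 ≤ Q) : ∀ (n : ℕ) (M : Set (Ex n)), Good M →
    ∑ k ∈ range (n + 1), cf Q n k * cnt k (Pw Q M) ≤ (Nat.factorial n : ℝ) * cnt n M := by
  intro n
  induction n with
  | zero =>
    intro M hM
    simp only [zero_add, range_one, sum_singleton, cf, if_true, one_mul, Nat.factorial_zero,
      Nat.cast_one]
    have h1 : cnt 0 (Pw Q M) ≤ cnt 0 M := by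
      refine cnt_anti hM.cofin ?_ 0
      intro z hz
      have h2 := Pw_nsmul (Pw_one hz) Q
      rw [mul_one] at h2
      refine Pw_up _ _ _ h2 _ fun i => i.elim0
    exact_mod_cast h1
  | succ m ih =>
    intro M hM
    have hA := hM.pw Q
    obtain ⟨T₁, hT₁⟩ := exists_single_mem hA.cofin
    obtain ⟨T₂, hT₂⟩ := exists_single_mem hM.cofin
    obtain ⟨T, hT1, hT2⟩ : ∃ T, T₁ ≤ T ∧ T₂ ≤ T := ⟨max T₁ T₂, le_max_left _ _, le_max_right _ _⟩
    have hQT : T ≤ Q * T := Nat.le_mul_of_pos_left T (by omega)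
    have e1 : ∀ k, cnt (k + 1) (Pw Q M) = ∑ τ ∈ range (Q * T), cnt k (slice (Pw Q M) τ) := fun k =>
      cnt_eq_sum hA.cofin k (Q * T) fun z hz => hT₁ z 0 (by omega)
    have e2 : cnt (m + 1) M = ∑ t ∈ range T, cnt m (slice M t) :=
      cnt_eq_sum hM.cofin m T fun z hz => hT₂ z 0 (by omega)
    rw [sum_range_succ', cf_succ_zero, zero_mul, add_zero]
    have e3 : ∑ k ∈ range (m + 1), cf Q (m + 1) (k + 1) * (cnt (k + 1) (Pw Q M) : ℝ) =
        ∑ t ∈ range T, ∑ v ∈ range Q, ∑ k ∈ range (m + 1),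
          cf Q (m + 1) (k + 1) * (cnt k (slice (Pw Q M) (Q * t + v)) : ℝ) := by
      rw [← sum_blocks (fun τ => ∑ k ∈ range (m + 1),
          cf Q (m + 1) (k + 1) * (cnt k (slice (Pw Q M) τ) : ℝ)), sum_comm]
      refine sum_congr rfl fun k _ => ?_
      rw [e1 k]
      push_cast
      rw [mul_sum]
    rw [e3, e2]
    push_cast
    rw [mul_sum]
    refine sum_le_sum fun t _ => ?_
    refine (block hQ (fun k τ => (cnt k (slice (Pw Q M) τ) : ℝ)) ?_ ?_ (Q * t)).trans ?_
    · intro k τ hk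
      exact_mod_cast cnt_rec hA k τ hk
    · intro τ
      exact_mod_cast cnt_slice_anti hA 0 τ
    · rw [Nat.factorial_succ]
      push_cast
      rw [mul_assoc]
      refine mul_le_mul_of_nonneg_left ?_ (by positivity)
      refine le_trans (sum_le_sum fun k _ => ?_) (ih (slice M t) (hM.slice t))
      refine mul_le_mul_of_nonneg_left ?_ (cf_nonneg (by exact_mod_cast hQ) _ _)
      exact_mod_cast cnt_anti (Pw_cofin (hM.slice t).cofin Q) (Pw_slice Q t) k

end Pool.Agent.H61L
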