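import Mathlib
import Pool.Agent.H61L.Comb

/-!
# Monomials in linear forms in a power series ring
-/

set_option autoImplicit false

namespace Pool.Agent.H61L

open Finset MvPowerSeries

section tail

variable {W : Type*} [CommRing W] {σ : Type*} [Finite σ]

/-- a power series without terms of degree `< n` is in the `n`-th power of the ideal of the
variables -/
lemma tail_mem (n : ℕ) (f : MvPowerSeries σ W) (hf : ∀ e : σ →₀ ℕ, e.degree < n → coeff e f = 0) :
    f ∈ (Ideal.span (Set.range (X : σ → MvPowerSeries σ W))) ^ n := by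
  set P := MvPolynomial σ W with hP
  set I := MvPolynomial.idealOfVars σ W with hI
  have htr : truncTotal n f = 0 := by
    ext e
    rw [coeff_truncTotal_eq_ite, MvPolynomial.coeff_zero]
    split_ifs with h
    · exact hf e h
    · rfl
  have h1 : toAdicCompletionAlgEquiv σ W f ∈ (I ^ n • ⊤ : Submodule P (AdicCompletion I P)) := by
    rw [AdicCompletion.pow_smul_top_eq_ker_eval (MvPolynomial.idealOfVars_fg σ W), LinearMap.mem_ker]
    change (toAdicCompletion σ W f).val n = 0
    rw [toAdicCompletion_apply_eq_mk_truncTotal, htr]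
    exact map_zero _
  have h2 : f ∈ (I ^ n • ⊤ : Submodule P (MvPowerSeries σ W)) := by
    have h3 := Submodule.mem_map_of_mem
      (f := (toAdicCompletionAlgEquiv σ W).symm.toLinearEquiv.toLinearMap) h1
    rw [Submodule.map_smul''] at h3
    have h4 : (toAdicCompletionAlgEquiv σ W).symm.toLinearEquiv.toLinearMap
        (toAdicCompletionAlgEquiv σ W f) = f := by
      change (toAdicCompletionAlgEquiv σ W).symm (toAdicCompletionAlgEquiv σ W f) = f
      exact AlgEquiv.symm_apply_apply _ _
    rw [h4] at h3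
    exact (Submodule.smul_mono (le_refl _) le_top) h3
  refine Submodule.smul_induction_on h2 (fun r hr t _ => ?_) (fun x y hx hy => add_mem hx hy)
  rw [Algebra.smul_def]
  apply Ideal.mul_mem_right
  have h5 : Ideal.map (algebraMap P (MvPowerSeries σ W)) I ≤
      Ideal.span (Set.range (X : σ → MvPowerSeries σ W)) := by
    rw [hI, MvPolynomial.idealOfVars, Ideal.map_span, Ideal.span_le]
    rintro _ ⟨_, ⟨s, rfl⟩, rfl⟩
    apply Ideal.subset_span
    refine ⟨s, ?_⟩
    exact (MvPolynomial.coe_X s).symm
  have h6 : algebraMap P (MvPowerSeries σ W) r ∈ (Ideal.map (algebraMap P (MvPowerSeries σ W)) I) ^ n := by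
    rw [← Ideal.map_pow]
    exact Ideal.mem_map_of_mem _ hr
  exact Ideal.pow_right_mono h5 n h6

end tail

variable {k : Type*} [Field k] {n : ℕ}

lemma length_eq (M : Type*) [AddCommGroup M] [Module k M] [Module (MvPowerSeries (Fin n) k) M]
    [IsScalarTower k (MvPowerSeries (Fin n) k) M] :
    Module.length (MvPowerSeries (Fin n) k) M = Module.length k M := by
  have : IsLocalHom (algebraMap k (MvPowerSeries (Fin n) k)) := by
    refine ⟨fun a ha => ?_⟩
    rw [MvPowerSeries.isUnit_iff_constantCoeff] at ha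
    simpa [MvPowerSeries.algebraMap_apply] using ha
  rw [IsLocalRing.length_restrictScalars k (MvPowerSeries (Fin n) k) M]
  have h1 : Function.Surjective (algebraMap (IsLocalRing.ResidueField k)
      (IsLocalRing.ResidueField (MvPowerSeries (Fin n) k))) := by
    intro x
    obtain ⟨f, rfl⟩ := IsLocalRing.residue_surjective x
    refine ⟨IsLocalRing.residue k (constantCoeff f), ?_⟩
    rw [IsLocalRing.ResidueField.algebraMap_residue, eq_comm, ← sub_eq_zero, ← map_sub,
      IsLocalRing.residue_eq_zero_iff, IsLocalRing.mem_maximalIdeal, mem_nonunits_iff,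
      MvPowerSeries.isUnit_iff_constantCoeff]
    simp [MvPowerSeries.algebraMap_apply]
  rw [Module.length_eq_of_surjective h1, Module.length_eq_one (R := IsLocalRing.ResidueField
    (MvPowerSeries (Fin n) k)) (M := IsLocalRing.ResidueField (MvPowerSeries (Fin n) k)), mul_one]

/-- the linear forms attached to a matrix -/
noncomputable def lf (g : Matrix (Fin n) (Fin n) k) (j : Fin n) : MvPowerSeries (Fin n) k :=
  ∑ t, g j t • (X t : MvPowerSeries (Fin n) k)

/-- the monomials in these linear forms -/
noncomputable def mono (g : Matrix (Fin n) (Fin n) k) (a : Ex n) : MvPowerSeries (Fin n) k :=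
  ∏ j, lf g j ^ a j

/-- the ideal of the variables -/
noncomputable def mm (n : ℕ) (k : Type*) [Field k] : Ideal (MvPowerSeries (Fin n) k) :=
  Ideal.span (Set.range (X : Fin n → MvPowerSeries (Fin n) k))

lemma mono_add (g : Matrix (Fin n) (Fin n) k) (a b : Ex n) :
    mono g (a + b) = mono g a * mono g b := by
  unfold mono
  rw [← prod_mul_distrib]
  exact prod_congr rfl fun j _ => by rw [Pi.add_apply, pow_add]

lemma mono_zero (g : Matrix (Fin n) (Fin n) k) : mono g 0 = 1 := by
  unfold mono
  exact prod_eq_one fun j _ => by rw [Pi.zero_apply, pow_zero]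

lemma mono_single (g : Matrix (Fin n) (Fin n) k) (j : Fin n) :
    mono g (Pi.single j 1) = lf g j := by
  unfold mono
  rw [prod_eq_single j]
  · rw [Pi.single_eq_same, pow_one]
  · intro i _ hij
    rw [Pi.single_eq_of_ne hij, pow_zero]
  · intro h
    exact absurd (mem_univ j) h

lemma lf_mem (g : Matrix (Fin n) (Fin n) k) (j : Fin n) : lf g j ∈ mm n k := by
  refine Ideal.sum_mem _ fun t _ => ?_
  rw [MvPowerSeries.smul_eq_C_mul]
  exact Ideal.mul_mem_left _ _ (Ideal.subset_span ⟨t, rfl⟩)

lemma mono_mem (g : Matrix (Fin n) (Fin n) k) (a : Ex n) : mono g a ∈ mm n k ^ (∑ j, a j) := by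
  unfold mono
  rw [← prod_pow_eq_pow_sum]
  exact Ideal.prod_mem_prod fun j _ => Ideal.pow_mem_pow (lf_mem g j) _

lemma span_mul (g : Matrix (Fin n) (Fin n) k) {x y : MvPowerSeries (Fin n) k}
    (hx : x ∈ Submodule.span k (Set.range (mono g)))
    (hy : y ∈ Submodule.span k (Set.range (mono g))) :
    x * y ∈ Submodule.span k (Set.range (mono g)) := by
  have h := Submodule.mul_mem_mul hx hy
  rw [Submodule.span_mul_span] at h
  refine Submodule.span_mono ?_ h
  rintro _ ⟨_, ⟨a, rfl⟩, _, ⟨b, rfl⟩, rfl⟩
  exact ⟨a + b, mono_add g a b⟩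

lemma X_mem (g : Matrix (Fin n) (Fin n) k) (hg : g.det ≠ 0) (t : Fin n) :
    (X t : MvPowerSeries (Fin n) k) ∈ Submodule.span k (Set.range (mono g)) := by
  have h1 : (X t : MvPowerSeries (Fin n) k) = ∑ j, g⁻¹ t j • lf g j := by
    have h2 : g⁻¹ * g = 1 := Matrix.nonsing_inv_mul g (isUnit_iff_ne_zero.2 hg)
    unfold lf
    simp_rw [smul_sum, smul_smul]
    rw [sum_comm]
    simp_rw [← sum_smul]
    have h3 : ∀ s, ∑ j, g⁻¹ t j * g j s = if t = s then 1 else 0 := fun s => by
      have := congrFun (congrFun h2 t) s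
      rw [Matrix.mul_apply, Matrix.one_apply] at this
      exact this
    simp_rw [h3]
    simp
  rw [h1]
  refine Submodule.sum_mem _ fun j _ => Submodule.smul_mem _ _ (Submodule.subset_span ?_)
  exact ⟨Pi.single j 1, mono_single g j⟩

lemma decomp (g : Matrix (Fin n) (Fin n) k) (hg : g.det ≠ 0) (N : ℕ)
    (f : MvPowerSeries (Fin n) k) :
    ∃ p ∈ Submodule.span k (Set.range (mono g)), f - p ∈ mm n k ^ N := by
  refine ⟨(truncTotal N f : MvPolynomial (Fin n) k), ?_, ?_⟩
  · have h3 : ((truncTotal N f : MvPolynomial (Fin n) k) : MvPowerSeries (Fin n) k) =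
        ∑ e ∈ (truncTotal N f).support,
          ((MvPolynomial.monomial e ((truncTotal N f).coeff e) : MvPolynomial (Fin n) k) :
            MvPowerSeries (Fin n) k) := by
      conv_lhs => rw [(truncTotal N f).as_sum]
      exact map_sum (MvPolynomial.coeToMvPowerSeries.ringHom (σ := Fin n) (R := k)) _ _
    rw [h3]
    refine Submodule.sum_mem _ fun e _ => ?_
    rw [MvPolynomial.coe_monomial]
    have h4 : (monomial e ((truncTotal N f).coeff e) : MvPowerSeries (Fin n) k) =
        (truncTotal N f).coeff e • ∏ t, (X t : MvPowerSeries (Fin n) k) ^ e t := by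
      rw [MvPowerSeries.monomial_eq', MvPowerSeries.smul_eq_C_mul, Finsupp.prod_fintype]
      exact fun _ => pow_zero _
    rw [h4]
    refine Submodule.smul_mem _ _ ?_
    have h5 : ∀ s : Finset (Fin n), ∏ t ∈ s, (X t : MvPowerSeries (Fin n) k) ^ e t ∈
        Submodule.span k (Set.range (mono g)) := by
      intro s
      classical
      have h1 : (1 : MvPowerSeries (Fin n) k) ∈ Submodule.span k (Set.range (mono g)) :=
        Submodule.subset_span ⟨0, mono_zero g⟩
      induction s using Finset.induction_on with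
      | empty => rw [prod_empty]; exact h1
      | insert a s ha ih =>
        rw [prod_insert ha]
        refine span_mul g ?_ ih
        generalize e a = c
        induction c with
        | zero => rw [pow_zero]; exact h1
        | succ c ihc => rw [pow_succ]; exact span_mul g ihc (X_mem g hg a)
    exact h5 _
  · apply tail_mem
    intro e he
    rw [map_sub, MvPolynomial.coeff_coe, coeff_truncTotal _ he, sub_self]

/-- the weight -/
def wt (N : ℕ) (a : Ex n) : ℕ := ∑ t, a t * N ^ (t : ℕ)

lemma wt_add (N : ℕ) (a b : Ex n) : wt N (a + b) = wt N a + wt N b := by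
  unfold wt
  rw [← sum_add_distrib]
  exact sum_congr rfl fun t _ => by rw [Pi.add_apply, add_mul]

lemma wt_single (N : ℕ) (j : Fin n) (c : ℕ) : wt N (Pi.single j c) = c * N ^ (j : ℕ) := by
  unfold wt
  rw [sum_eq_single j]
  · rw [Pi.single_eq_same]
  · intro i _ hij
    rw [Pi.single_eq_of_ne hij, zero_mul]
  · intro h
    exact absurd (mem_univ j) h

lemma wt_inj (N : ℕ) {a b : Ex n} (ha : ∀ t, a t < N) (hb : ∀ t, b t < N)
    (h : wt N a = wt N b) : a = b := by
  have h1 := finFunctionFinEquiv_apply (fun t => (⟨a t, ha t⟩ : Fin N))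
  have h2 := finFunctionFinEquiv_apply (fun t => (⟨b t, hb t⟩ : Fin N))
  have h3 : finFunctionFinEquiv (fun t => (⟨a t, ha t⟩ : Fin N)) =
      finFunctionFinEquiv (fun t => (⟨b t, hb t⟩ : Fin N)) := Fin.ext (by rw [h1, h2]; exact h)
  have h4 := finFunctionFinEquiv.injective h3
  funext t
  have := congrFun h4 t
  simpa using this

lemma wt_le {N : ℕ} (hN : 1 ≤ N) (a : Ex n) : wt N a ≤ (∑ t, a t) * N ^ n := by
  unfold wt
  rw [sum_mul]
  exact sum_le_sum fun t _ => Nat.mul_le_mul_left _ (Nat.pow_le_pow_right hN t.2.le)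

end Pool.Agent.H61L
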