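import Mathlib
import Pool.Agent.H61L.Comb

/-!
# The integral closure of an upset
-/

set_option autoImplicit false

namespace Pool.Agent.H61L

open Finset

/-- move everything from `j` to `i` -/
def fm {n : ℕ} (a : Ex n) (i j : Fin n) : Ex n := fun l =>
  if l = i then a i + a j else if l = j then 0 else a l

lemma fm_add {n : ℕ} (a b : Ex n) (i j : Fin n) : fm (a + b) i j = fm a i j + fm b i j := by
  funext l
  simp only [fm, Pi.add_apply]
  split_ifs
  · ring
  · rfl
  · rfl

lemma fm_sum {n : ℕ} (s : Multiset (Ex n)) (i j : Fin n) :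
    (s.map fun a => fm a i j).sum = fm s.sum i j := by
  induction s using Multiset.induction_on with
  | empty =>
    funext l
    simp [fm]
  | cons a s ih =>
    rw [Multiset.map_cons, Multiset.sum_cons, ih, Multiset.sum_cons, fm_add]

/-- the closure -/
def clo {n : ℕ} (M : Set (Ex n)) : Set (Ex n) := {u | ∃ N : ℕ, 1 ≤ N ∧ N • u ∈ Pw N M}

lemma subset_clo {n : ℕ} (M : Set (Ex n)) : M ⊆ clo M := fun u hu =>
  ⟨1, le_rfl, by rw [one_smul]; exact Pw_one hu⟩

lemma good_clo {n : ℕ} {M : Set (Ex n)} (hc : Mᶜ.Finite)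
    (hB : ∀ a ∈ M, ∀ i j : Fin n, i < j → fm a i j ∈ M) : Good (clo M) := by
  refine ⟨?_, hc.subset (Set.compl_subset_compl.2 (subset_clo M)), ?_⟩
  · rintro a ⟨N, hN, h⟩ b hab
    exact ⟨N, hN, Pw_up _ _ _ h _ (nsmul_le_nsmul_right hab N)⟩
  · rintro a ⟨N, hN, s, h1, h2, h3⟩ i j hij haj
    refine ⟨N * a j, Nat.mul_pos hN haj,
      (a j - 1) • s + s.map (fun u => fm u i j), ?_, ?_, ?_⟩
    · rw [Multiset.card_add, Multiset.card_nsmul, Multiset.card_map, h1]
      obtain ⟨c, hc⟩ : ∃ c, a j = c + 1 := ⟨a j - 1, by omega⟩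
      rw [hc, Nat.add_sub_cancel]
      ring
    · intro u hu
      rcases Multiset.mem_add.1 hu with h | h
      · exact h2 u (Multiset.mem_of_mem_nsmul h)
      · obtain ⟨v, hv, rfl⟩ := Multiset.mem_map.1 h
        exact hB v (h2 v hv) i j hij
    · obtain ⟨c, hc⟩ : ∃ c, a j = c + 1 := ⟨a j - 1, by omega⟩
      rw [Multiset.sum_add, fm_sum, Multiset.sum_nsmul]
      intro l
      have hl := h3 l
      have hj := h3 j
      rw [Pi.smul_apply, smul_eq_mul] at hl hj
      rw [Pi.add_apply, Pi.smul_apply, Pi.smul_apply, mv_apply a i j hij.ne, smul_eq_mul,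
        smul_eq_mul, hc, Nat.add_sub_cancel]
      rw [hc] at hj
      have hcl := Nat.mul_le_mul_left c hl
      have hcj := Nat.mul_le_mul_left c hj
      simp only [fm]
      split_ifs with h4 h5
      · subst h4
        generalize s.sum l = S at *
        generalize s.sum j = T at *
        generalize a l = b at *
        calc c * S + (S + T) ≤ c * (N * b) + (N * b + N * (c + 1)) :=
              add_le_add hcl (add_le_add hl hj)
          _ = N * (c + 1) * (b + 1) := by ring
      · subst h5
        calc c * s.sum l + 0 ≤ c * (N * (c + 1)) := hcj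
          _ = N * (c + 1) * c := by ring
      · calc c * s.sum l + s.sum l ≤ c * (N * a l) + N * a l := add_le_add hcl hl
          _ = N * (c + 1) * a l := by ring

/-- comparison of the powers of the closure with the powers -/
lemma Pw_clo {n : ℕ} {M : Set (Ex n)} (hM : Good (clo M)) :
    ∃ c₀ : ℕ, ∀ s : ℕ, Pw (s + c₀) (clo M) ⊆ Pw s M := by
  classical
  obtain ⟨B, hB⟩ := exists_single_mem hM.cofin
  let G : Finset (Ex n) := ((Set.finite_Iic (fun _ : Fin n => B)).toFinset.filter
    fun z => z ∈ clo M)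
  let tr : Ex n → Ex n := fun z i => min (z i) B
  have htr : ∀ z ∈ clo M, tr z ∈ G := by
    intro z hz
    simp only [G, mem_filter, Set.Finite.mem_toFinset, Set.mem_Iic]
    refine ⟨fun i => min_le_right _ _, ?_⟩
    by_cases h : ∃ i, B ≤ z i
    · obtain ⟨i, hi⟩ := h
      exact hB _ i (by simp only [tr]; omega)
    · push Not at h
      have : tr z = z := by
        funext i
        simp only [tr]
        have := h i
        omega
      rw [this]
      exact hz
  have hG : ∀ g ∈ G, ∃ N : ℕ, 1 ≤ N ∧ N • g ∈ Pw N M := by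
    intro g hg
    exact (mem_filter.1 hg).2
  choose! N hN1 hN2 using hG
  refine ⟨∑ g ∈ G, N g, fun s z hz => ?_⟩
  obtain ⟨t, h1, h2, h3⟩ := hz
  have h4 : (t.map tr).sum ≤ z := by
    refine le_trans ?_ h3
    clear h1 h2 h3
    induction t using Multiset.induction_on with
    | empty => simp
    | cons a t ih =>
      rw [Multiset.map_cons, Multiset.sum_cons, Multiset.sum_cons]
      exact add_le_add (fun i => min_le_left _ _) ih
  have h5 : (t.map tr).card = s + ∑ g ∈ G, N g := by rw [Multiset.card_map, h1]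
  have h6 : ∀ u ∈ t.map tr, u ∈ G := by
    intro u hu
    obtain ⟨v, hv, rfl⟩ := Multiset.mem_map.1 hu
    exact htr v (h2 v hv)
  generalize t.map tr = t' at h4 h5 h6
  have h7 : (t'.sum) = ∑ g ∈ G, t'.count g • g :=
    Finset.sum_multiset_count_of_subset t' G fun u hu => h6 u (Multiset.mem_toFinset.1 hu)
  have h8 : ∑ g ∈ G, t'.count g = t'.card := by
    rw [← Multiset.toFinset_sum_count_eq]
    symm
    refine sum_subset (fun u hu => h6 u (Multiset.mem_toFinset.1 hu)) fun u _ hu => ?_
    rw [Multiset.count_eq_zero]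
    exact fun h => hu (Multiset.mem_toFinset.2 h)
  have h9 : ∑ g ∈ G, (t'.count g / N g) • (N g • g) ∈
      Pw (∑ g ∈ G, (t'.count g / N g) * N g) M :=
    Pw_sum G _ _ fun g hg => Pw_nsmul (hN2 g hg) _
  have h10 : ∑ g ∈ G, (t'.count g / N g) • (N g • g) ≤ z := by
    refine le_trans ?_ h4
    rw [h7]
    refine sum_le_sum fun g hg => ?_
    rw [smul_smul]
    exact nsmul_le_nsmul_left (fun i => Nat.zero_le _) (Nat.div_mul_le_self _ _)
  have h11 : s ≤ ∑ g ∈ G, (t'.count g / N g) * N g := by
    have h12 : ∑ g ∈ G, t'.count g ≤ ∑ g ∈ G, (t'.count g / N g) * N g + ∑ g ∈ G, N g := by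
      rw [← sum_add_distrib]
      refine sum_le_sum fun g hg => ?_
      have := Nat.lt_div_mul_add (a := t'.count g) (hN1 g hg)
      omega
    omega
  exact Pw_mono_left h11 (Pw_up _ _ _ h9 _ h10)

end Pool.Agent.H61L
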