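import Mathlib
import Pool.Agent.H61L.Alg
import Pool.Agent.H61L.Clo

/-!
# Generic initial exponents
-/

set_option autoImplicit false

namespace Pool.Agent.H61L

open Finset MvPowerSeries

variable {k : Type*} [Field k] {n : ℕ}

/-- the class of a monomial -/
noncomputable def q (I : Ideal (MvPowerSeries (Fin n) k)) (g : Matrix (Fin n) (Fin n) k) (a : Ex n) :
    MvPowerSeries (Fin n) k ⧸ I := Ideal.Quotient.mk I (mono g a)

lemma q_add (I : Ideal (MvPowerSeries (Fin n) k)) (g : Matrix (Fin n) (Fin n) k) (a b : Ex n) :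
    q I g (a + b) = q I g a * q I g b := by
  unfold q
  rw [mono_add, map_mul]

lemma span_top {J : Ideal (MvPowerSeries (Fin n) k)} {N : ℕ} (hJ : mm n k ^ N ≤ J)
    (g : Matrix (Fin n) (Fin n) k) (hg : g.det ≠ 0) :
    Submodule.span k (Set.range (q J g)) = ⊤ := by
  rw [eq_top_iff]
  rintro x -
  obtain ⟨f, rfl⟩ := Ideal.Quotient.mk_surjective x
  obtain ⟨p, hp, hfp⟩ := decomp g hg N f
  have h1 : Ideal.Quotient.mk J f = Ideal.Quotient.mk J p :=
    Ideal.Quotient.eq.2 (hJ hfp)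
  rw [h1]
  have h2 := Submodule.mem_map_of_mem (f := (Ideal.Quotient.mkₐ k J).toLinearMap) hp
  rw [Submodule.map_span, ← Set.range_comp] at h2
  exact h2

lemma q_zero {J : Ideal (MvPowerSeries (Fin n) k)} {N : ℕ} (hJ : mm n k ^ N ≤ J)
    (g : Matrix (Fin n) (Fin n) k) (a : Ex n) (ha : N ≤ ∑ t, a t) : q J g a = 0 :=
  Ideal.Quotient.eq_zero_iff_mem.2 (hJ (Ideal.pow_le_pow_right ha (mono_mem g a)))

lemma finite_sum_lt (N : ℕ) : {a : Ex n | ∑ t, a t < N}.Finite := by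
  refine (finite_box (n := n) N).subset fun a ha i => ?_
  have h2 : a i ≤ ∑ i, a i := Finset.single_le_sum (fun _ _ => Nat.zero_le _) (mem_univ i)
  exact lt_of_le_of_lt h2 ha

lemma finite_quot {J : Ideal (MvPowerSeries (Fin n) k)} {N : ℕ} (hJ : mm n k ^ N ≤ J) :
    Module.Finite k (MvPowerSeries (Fin n) k ⧸ J) := by
  classical
  have h1 := span_top hJ (1 : Matrix (Fin n) (Fin n) k) (by rw [Matrix.det_one]; exact one_ne_zero)
  refine ⟨⟨((finite_sum_lt (n := n) N).toFinset.image (q J 1)), ?_⟩⟩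
  rw [eq_top_iff, ← h1, Submodule.span_le]
  rintro _ ⟨a, rfl⟩
  by_cases ha : N ≤ ∑ t, a t
  · rw [q_zero hJ _ a ha]
    exact zero_mem _
  · apply Submodule.subset_span
    rw [mem_coe]
    refine mem_image_of_mem _ ?_
    rw [Set.Finite.mem_toFinset]
    exact not_le.1 ha

/-- the total weight -/
def tw (N : ℕ) {δ : ℕ} (φ : Fin δ → Ex n) : ℕ := ∑ t, wt N (φ t)

lemma tw_update (N : ℕ) {δ : ℕ} (φ : Fin δ → Ex n) (l : Fin δ) (a : Ex n) :
    tw N (Function.update φ l a) + wt N (φ l) = tw N φ + wt N a := by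
  unfold tw
  have h1 : ∀ ψ : Fin δ → Ex n, ∑ t, wt N (ψ t) = wt N (ψ l) + ∑ t ∈ univ.erase l, wt N (ψ t) :=
    fun ψ => (add_sum_erase _ _ (mem_univ l)).symm
  rw [h1, h1 φ, Function.update_self]
  have h2 : ∑ t ∈ univ.erase l, wt N (Function.update φ l a t) =
      ∑ t ∈ univ.erase l, wt N (φ t) := by
    refine sum_congr rfl fun t ht => ?_
    rw [Function.update_of_ne (ne_of_mem_erase ht)]
  rw [h2]
  ring

section generic

variable {I : Ideal (MvPowerSeries (Fin n) k)} {N δ : ℕ}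
  (e : Module.Basis (Fin δ) k (MvPowerSeries (Fin n) k ⧸ I))

lemma exists_max (hN : 1 ≤ N) (hI : mm n k ^ N ≤ I) :
    ∃ (g₀ : Matrix (Fin n) (Fin n) k) (φ₀ : Fin δ → Ex n), g₀.det ≠ 0 ∧
      e.det (fun t => q I g₀ (φ₀ t)) ≠ 0 ∧
      ∀ (g : Matrix (Fin n) (Fin n) k) (φ : Fin δ → Ex n), g.det ≠ 0 →
        e.det (fun t => q I g (φ t)) ≠ 0 → tw N φ ≤ tw N φ₀ := by
  classical
  let P : Set ℕ := {w | ∃ (g : Matrix (Fin n) (Fin n) k) (φ : Fin δ → Ex n), g.det ≠ 0 ∧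
      e.det (fun t => q I g (φ t)) ≠ 0 ∧ w = tw N φ}
  have hne : P.Nonempty := by
    have h1 := span_top hI (1 : Matrix (Fin n) (Fin n) k) (by rw [Matrix.det_one]; exact one_ne_zero)
    obtain ⟨κ, a, -, h3, h4⟩ := exists_linearIndependent' k (q I (1 : Matrix (Fin n) (Fin n) k))
    rw [h1] at h3
    let B : Module.Basis κ k (MvPowerSeries (Fin n) k ⧸ I) := Module.Basis.mk h4 h3.ge
    let ε : κ ≃ Fin δ := B.indexEquiv e
    refine ⟨_, 1, fun t => a (ε.symm t), by rw [Matrix.det_one]; exact one_ne_zero, ?_, rfl⟩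
    have h5 : (fun t => q I (1 : Matrix (Fin n) (Fin n) k) (a (ε.symm t))) = B.reindex ε := by
      funext t
      rw [Module.Basis.reindex_apply, Module.Basis.mk_apply]
      rfl
    rw [h5]
    exact (Module.Basis.isUnit_det e (B.reindex ε)).ne_zero
  have hbd : BddAbove P := by
    refine ⟨δ * (N * N ^ n), ?_⟩
    rintro _ ⟨g, φ, hg, hD, rfl⟩
    have h1 : ∀ t, wt N (φ t) ≤ N * N ^ n := by
      intro t
      refine (wt_le hN (φ t)).trans (Nat.mul_le_mul_right _ ?_)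
      by_contra hcon
      push Not at hcon
      apply hD
      exact (e.det).map_coord_zero t (q_zero hI g (φ t) hcon.le)
    unfold tw
    refine (sum_le_sum fun t _ => h1 t).trans ?_
    rw [sum_const, card_univ, Fintype.card_fin, smul_eq_mul]
  obtain ⟨g₀, φ₀, h1, h2, h3⟩ := Nat.sSup_mem hne hbd
  refine ⟨g₀, φ₀, h1, h2, fun g φ hg hD => ?_⟩
  rw [← h3]
  exact le_csSup hbd ⟨g, φ, hg, hD, rfl⟩

lemma exists_basis {g : Matrix (Fin n) (Fin n) k} {φ₀ : Fin δ → Ex n}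
    (hD : e.det (fun t => q I g (φ₀ t)) ≠ 0) :
    ∃ B : Module.Basis (Fin δ) k (MvPowerSeries (Fin n) k ⧸ I), (∀ t, B t = q I g (φ₀ t)) ∧
      ∀ s x, e.det (Function.update (fun t => q I g (φ₀ t)) s x) =
        e.det (fun t => q I g (φ₀ t)) * B.repr x s := by
  obtain ⟨h1, h2⟩ := (Module.Basis.is_basis_iff_det e).2 (isUnit_iff_ne_zero.2 hD)
  refine ⟨Module.Basis.mk h1 h2.ge, fun t => Module.Basis.mk_apply _ _ _, fun s x => ?_⟩
  have h3 := Module.Basis.det_smul_mk_coord_eq_det_update e h1 h2.ge s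
  have h4 := LinearMap.congr_fun h3 x
  exact h4.symm

variable {e}

lemma coord_wt {φ₀ : Fin δ → Ex n} (hI : mm n k ^ N ≤ I)
    (hmax : ∀ (g : Matrix (Fin n) (Fin n) k) (φ : Fin δ → Ex n), g.det ≠ 0 →
        e.det (fun t => q I g (φ t)) ≠ 0 → tw N φ ≤ tw N φ₀)
    {g : Matrix (Fin n) (Fin n) k} (hg : g.det ≠ 0)
    (hD : e.det (fun t => q I g (φ₀ t)) ≠ 0)
    {B : Module.Basis (Fin δ) k (MvPowerSeries (Fin n) k ⧸ I)}
    (hB : ∀ s x, e.det (Function.update (fun t => q I g (φ₀ t)) s x) =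
        e.det (fun t => q I g (φ₀ t)) * B.repr x s)
    (hB' : ∀ t, B t = q I g (φ₀ t))
    {a : Ex n} {s : Fin δ} (ha : B.repr (q I g a) s ≠ 0) (has : a ≠ φ₀ s) :
    wt N a < wt N (φ₀ s) := by
  have h1 : e.det (fun t => q I g (Function.update φ₀ s a t)) ≠ 0 := by
    have h2 : (fun t => q I g (Function.update φ₀ s a t)) =
        Function.update (fun t => q I g (φ₀ t)) s (q I g a) := Function.comp_update (q I g) φ₀ s a
    rw [h2, hB]
    exact mul_ne_zero hD ha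
  have h3 := hmax g _ hg h1
  have h4 := tw_update N φ₀ s a
  have h5 : wt N a ≤ wt N (φ₀ s) := by omega
  refine lt_of_le_of_ne h5 fun h6 => has ?_
  have h7 : ∀ b : Ex n, q I g b ≠ 0 → ∀ t, b t < N := by
    intro b hb t
    by_contra hcon
    push Not at hcon
    apply hb
    refine q_zero hI g b (hcon.trans ?_)
    exact Finset.single_le_sum (fun _ _ => Nat.zero_le _) (mem_univ t)
  refine wt_inj N (h7 a ?_) (h7 (φ₀ s) ?_) h6
  · intro h
    rw [h, map_zero] at ha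
    exact ha rfl
  · rw [← hB']
    exact B.ne_zero s

/-- leading terms -/
lemma lead {φ₀ : Fin δ → Ex n} (hI : mm n k ^ N ≤ I)
    (hmax : ∀ (g : Matrix (Fin n) (Fin n) k) (φ : Fin δ → Ex n), g.det ≠ 0 →
        e.det (fun t => q I g (φ t)) ≠ 0 → tw N φ ≤ tw N φ₀)
    {g : Matrix (Fin n) (Fin n) k} (hg : g.det ≠ 0)
    (hD : e.det (fun t => q I g (φ₀ t)) ≠ 0) {a : Ex n} (ha : a ∉ Set.range φ₀) :
    q I g a ∈ Submodule.span k {x | ∃ b, wt N a < wt N b ∧ x = q I g b} := by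
  obtain ⟨B, hB', hB⟩ := exists_basis e hD
  rw [← B.sum_repr (q I g a)]
  refine Submodule.sum_mem _ fun s _ => ?_
  by_cases h : B.repr (q I g a) s = 0
  · rw [h, zero_smul]; exact zero_mem _
  · refine Submodule.smul_mem _ _ (Submodule.subset_span ⟨φ₀ s, ?_, hB' s⟩)
    exact coord_wt hI hmax hg hD hB hB' h fun h' => ha ⟨s, h'.symm⟩

lemma not_lead {φ₀ : Fin δ → Ex n} (hI : mm n k ^ N ≤ I)
    (hmax : ∀ (g : Matrix (Fin n) (Fin n) k) (φ : Fin δ → Ex n), g.det ≠ 0 →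
        e.det (fun t => q I g (φ t)) ≠ 0 → tw N φ ≤ tw N φ₀)
    {g : Matrix (Fin n) (Fin n) k} (hg : g.det ≠ 0)
    (hD : e.det (fun t => q I g (φ₀ t)) ≠ 0) (l : Fin δ) :
    q I g (φ₀ l) ∉ Submodule.span k {x | ∃ b, wt N (φ₀ l) < wt N b ∧ x = q I g b} := by
  obtain ⟨B, hB', hB⟩ := exists_basis e hD
  intro hcon
  have h1 : Submodule.span k {x | ∃ b, wt N (φ₀ l) < wt N b ∧ x = q I g b} ≤
      LinearMap.ker (B.coord l) := by
    rw [Submodule.span_le]
    rintro _ ⟨b, hb, rfl⟩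
    rw [SetLike.mem_coe, LinearMap.mem_ker, Module.Basis.coord_apply]
    by_contra h
    have h2 := coord_wt hI hmax hg hD hB hB' h (fun h' => by rw [h'] at hb; exact lt_irrefl _ hb)
    omega
  have h3 := h1 hcon
  rw [LinearMap.mem_ker, Module.Basis.coord_apply, ← hB', Module.Basis.repr_self,
    Finsupp.single_eq_same] at h3
  exact one_ne_zero h3

lemma up_closed {φ₀ : Fin δ → Ex n} (hI : mm n k ^ N ≤ I)
    (hmax : ∀ (g : Matrix (Fin n) (Fin n) k) (φ : Fin δ → Ex n), g.det ≠ 0 →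
        e.det (fun t => q I g (φ t)) ≠ 0 → tw N φ ≤ tw N φ₀)
    {g : Matrix (Fin n) (Fin n) k} (hg : g.det ≠ 0)
    (hD : e.det (fun t => q I g (φ₀ t)) ≠ 0) {a b : Ex n} (ha : a ∉ Set.range φ₀) (hab : a ≤ b) :
    b ∉ Set.range φ₀ := by
  rintro ⟨l, rfl⟩
  obtain ⟨c, hc⟩ : ∃ c, φ₀ l = a + c := ⟨φ₀ l - a, by
    funext t
    have h : a t ≤ φ₀ l t := hab t
    rw [Pi.add_apply, Pi.sub_apply]
    omega⟩
  apply not_lead hI hmax hg hD l
  have h1 := lead hI hmax hg hD ha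
  have h2 := Submodule.mem_map_of_mem (f := LinearMap.mulRight k (q I g c)) h1
  rw [LinearMap.mulRight_apply, ← q_add, ← hc, Submodule.map_span] at h2
  refine Submodule.span_mono ?_ h2
  rintro _ ⟨_, ⟨b, hb, rfl⟩, rfl⟩
  refine ⟨b + c, ?_, ?_⟩
  · rw [hc, wt_add, wt_add]
    omega
  · rw [LinearMap.mulRight_apply, q_add]

lemma phi_injective {φ₀ : Fin δ → Ex n} {g : Matrix (Fin n) (Fin n) k}
    (hD : e.det (fun t => q I g (φ₀ t)) ≠ 0) : Function.Injective φ₀ := by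
  intro s t hst
  by_contra h
  exact hD ((e.det).map_eq_zero_of_eq _ (by simp only [hst]) h)

end generic

end Pool.Agent.H61L
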