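import Mathlib
import Pool.Agent.H61L.Gin

/-!
# The generic initial exponents are stable under full moves
-/

set_option autoImplicit false

namespace Pool.Agent.H61L

open Finset MvPowerSeries

variable {k : Type*} [Field k] {n : ℕ}

/-- move `p` units from `j` to `i` -/
def mvp (v : Ex n) (i j : Fin n) (p : ℕ) : Ex n := v - Pi.single j p + Pi.single i p

lemma mono_single' (g : Matrix (Fin n) (Fin n) k) (j : Fin n) (p : ℕ) :
    mono g (Pi.single j p) = lf g j ^ p := by
  unfold mono
  rw [prod_eq_single j]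
  · rw [Pi.single_eq_same]
  · intro i _ hij
    rw [Pi.single_eq_of_ne hij, pow_zero]
  · intro h
    exact absurd (mem_univ j) h

lemma lf_mul (T g : Matrix (Fin n) (Fin n) k) (v : Fin n) :
    lf (T * g) v = ∑ w, T v w • lf g w := by
  unfold lf
  simp_rw [smul_sum, smul_smul]
  rw [sum_comm]
  simp_rw [← sum_smul, Matrix.mul_apply]

lemma lf_diag (c : Fin n → k) (g : Matrix (Fin n) (Fin n) k) (v : Fin n) :
    lf (Matrix.diagonal c * g) v = c v • lf g v := by
  rw [lf_mul, sum_eq_single v]
  · rw [Matrix.diagonal_apply_eq]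
  · intro i _ hij
    rw [Matrix.diagonal_apply_ne _ hij.symm, zero_smul]
  · intro h
    exact absurd (mem_univ v) h

lemma mono_diag (c : Fin n → k) (g : Matrix (Fin n) (Fin n) k) (a : Ex n) :
    mono (Matrix.diagonal c * g) a = (∏ t, c t ^ a t) • mono g a := by
  unfold mono
  simp_rw [lf_diag, smul_pow]
  rw [prod_smul]

lemma lf_transv {i j : Fin n} (g : Matrix (Fin n) (Fin n) k) (v : Fin n) :
    lf (Matrix.transvection j i 1 * g) v = lf g v + if v = j then lf g i else 0 := by
  rw [lf_mul]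
  simp only [Matrix.transvection, Matrix.add_apply, add_smul, sum_add_distrib]
  congr 1
  · rw [sum_eq_single v]
    · rw [Matrix.one_apply_eq, one_smul]
    · intro i _ hij
      rw [Matrix.one_apply_ne hij.symm, zero_smul]
    · intro h
      exact absurd (mem_univ v) h
  · by_cases hv : v = j
    · subst hv
      rw [if_pos rfl, sum_eq_single i]
      · rw [Matrix.single_apply_same, one_smul]
      · intro l _ hl
        rw [Matrix.single_apply, if_neg (fun h => hl h.2.symm), zero_smul]
      · intro h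
        exact absurd (mem_univ i) h
    · rw [if_neg hv]
      refine sum_eq_zero fun l _ => ?_
      rw [Matrix.single_apply, if_neg (fun h => hv h.1.symm), zero_smul]

lemma mono_transv {i j : Fin n} (g : Matrix (Fin n) (Fin n) k) (v : Ex n) :
    mono (Matrix.transvection j i 1 * g) v =
      ∑ p ∈ range (v j + 1), ((v j).choose p : k) • mono g (mvp v i j p) := by
  have h1 : ∀ a : Ex n, mono g a = lf g j ^ a j * ∏ t ∈ univ.erase j, lf g t ^ a t := fun a =>
    (mul_prod_erase _ _ (mem_univ j)).symm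
  have h2 : mono (Matrix.transvection j i 1 * g) v =
      (lf g i + lf g j) ^ v j * ∏ t ∈ univ.erase j, lf g t ^ v t := by
    unfold mono
    rw [← mul_prod_erase _ _ (mem_univ j), lf_transv, if_pos rfl, add_comm (lf g i)]
    congr 1
    refine prod_congr rfl fun t ht => ?_
    rw [lf_transv, if_neg (ne_of_mem_erase ht), add_zero]
  rw [h2, add_pow, sum_mul]
  refine sum_congr rfl fun p _ => ?_
  unfold mvp
  rw [mono_add, mono_single', h1]
  have h3 : ∏ t ∈ univ.erase j, lf g t ^ (v - Pi.single j p : Ex n) t =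
      ∏ t ∈ univ.erase j, lf g t ^ v t := by
    refine prod_congr rfl fun t ht => ?_
    rw [Pi.sub_apply, Pi.single_eq_of_ne (ne_of_mem_erase ht), Nat.sub_zero]
  rw [h3, Pi.sub_apply, Pi.single_eq_same, Nat.cast_smul_eq_nsmul, nsmul_eq_mul]
  ring

lemma prod_wt (N : ℕ) (θ : k) (a : Ex n) : ∏ t : Fin n, (θ ^ N ^ (t : ℕ)) ^ a t = θ ^ wt N a := by
  unfold wt
  rw [← prod_pow_eq_pow_sum]
  refine prod_congr rfl fun t _ => ?_
  rw [← pow_mul, mul_comm]

/-- the degenerating matrices -/
noncomputable def gθ (N : ℕ) (i j : Fin n) (g : Matrix (Fin n) (Fin n) k) (θ : k) :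
    Matrix (Fin n) (Fin n) k :=
  Matrix.transvection j i 1 * (Matrix.diagonal (fun t : Fin n => θ⁻¹ ^ N ^ (t : ℕ)) * g)

lemma gθ_det {N : ℕ} {i j : Fin n} (hij : i ≠ j) {g : Matrix (Fin n) (Fin n) k} (hg : g.det ≠ 0)
    {θ : k} (hθ : θ ≠ 0) : (gθ N i j g θ).det ≠ 0 := by
  unfold gθ
  rw [Matrix.det_mul, Matrix.det_mul, Matrix.det_transvection_of_ne _ _ hij.symm, one_mul,
    Matrix.det_diagonal]
  refine mul_ne_zero (prod_ne_zero_iff.2 fun t _ => pow_ne_zero _ (inv_ne_zero hθ)) hg

lemma q_gθ {N : ℕ} {i j : Fin n} (I : Ideal (MvPowerSeries (Fin n) k))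
    (g : Matrix (Fin n) (Fin n) k) (θ : k) (v : Ex n) :
    q I (gθ N i j g θ) v = ∑ p ∈ range (v j + 1),
      (((v j).choose p : k) * θ⁻¹ ^ wt N (mvp v i j p)) • q I g (mvp v i j p) := by
  unfold q gθ
  rw [mono_transv]
  simp_rw [mono_diag, prod_wt, smul_smul]
  have h : ∀ x : MvPowerSeries (Fin n) k, Ideal.Quotient.mk I x =
      (Ideal.Quotient.mkₐ k I).toLinearMap x := fun x => rfl
  simp_rw [h]
  rw [map_sum]
  simp_rw [map_smul]

section generic

variable {I : Ideal (MvPowerSeries (Fin n) k)} {N δ : ℕ}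
  {e : Module.Basis (Fin δ) k (MvPowerSeries (Fin n) k ⧸ I)}

/-- columns of the degenerate matrix -/
def col (k : Type*) [Field k] {δ : ℕ} (φ₀ : Fin δ → Ex n) (i j : Fin n) (v : Ex n) (s : Fin δ) : k :=
  ∑ p ∈ range (v j + 1), if mvp v i j p = φ₀ s then ((v j).choose p : k) else 0

lemma star [Infinite k] {φ₀ : Fin δ → Ex n} (hI : mm n k ^ N ≤ I)
    (hmax : ∀ (g : Matrix (Fin n) (Fin n) k) (φ : Fin δ → Ex n), g.det ≠ 0 →
        e.det (fun t => q I g (φ t)) ≠ 0 → tw N φ ≤ tw N φ₀)
    {g : Matrix (Fin n) (Fin n) k} (hg : g.det ≠ 0)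
    (hD : e.det (fun t => q I g (φ₀ t)) ≠ 0) {i j : Fin n} (hij : i ≠ j)
    (φ : Fin δ → Ex n) (hφ : tw N φ₀ < tw N φ) :
    (Matrix.of fun s t => col k φ₀ i j (φ t) s).det = 0 := by
  obtain ⟨B, hB', hB⟩ := exists_basis e hD
  let pe : Ex n → Fin δ → Polynomial k := fun v s => ∑ p ∈ range (v j + 1),
    Polynomial.C (((v j).choose p : k) * B.repr (q I g (mvp v i j p)) s) *
      Polynomial.X ^ (wt N (φ₀ s) - wt N (mvp v i j p))
  have hpe : ∀ v s θ, θ ≠ 0 → (pe v s).eval θ =
      θ ^ wt N (φ₀ s) * B.repr (q I (gθ N i j g θ) v) s := by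
    intro v s θ hθ
    simp only [pe]
    rw [Polynomial.eval_finsetSum, q_gθ, map_sum, Finsupp.finsetSum_apply, mul_sum]
    refine sum_congr rfl fun p _ => ?_
    rw [map_smul, Finsupp.smul_apply, smul_eq_mul, Polynomial.eval_mul, Polynomial.eval_C,
      Polynomial.eval_pow, Polynomial.eval_X]
    by_cases h : B.repr (q I g (mvp v i j p)) s = 0
    · rw [h]; ring
    · have h1 : wt N (mvp v i j p) ≤ wt N (φ₀ s) := by
        by_cases h2 : mvp v i j p = φ₀ s
        · rw [h2]
        · exact (coord_wt hI hmax hg hD hB hB' h h2).le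
      obtain ⟨c, hc⟩ := Nat.exists_eq_add_of_le h1
      rw [hc, Nat.add_sub_cancel_left, pow_add, inv_pow]
      field_simp
  have hpe0 : ∀ v s, (pe v s).eval 0 = col k φ₀ i j v s := by
    intro v s
    simp only [pe, col]
    rw [Polynomial.eval_finsetSum]
    refine sum_congr rfl fun p _ => ?_
    rw [Polynomial.eval_mul, Polynomial.eval_C, Polynomial.eval_pow, Polynomial.eval_X]
    split_ifs with h2
    · rw [h2, Nat.sub_self, pow_zero, mul_one, ← hB', Module.Basis.repr_self,
        Finsupp.single_eq_same, mul_one]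
    · by_cases h : B.repr (q I g (mvp v i j p)) s = 0
      · rw [h]; ring
      · have h3 := coord_wt hI hmax hg hD hB hB' h h2
        rw [zero_pow (by omega), mul_zero]
  let Pm : Matrix (Fin δ) (Fin δ) (Polynomial k) := Matrix.of fun s t => pe (φ t) s
  have h1 : ∀ θ : k, Pm.det.eval θ = (Matrix.of fun s t => (pe (φ t) s).eval θ).det := by
    intro θ
    have := RingHom.map_det (Polynomial.evalRingHom θ) Pm
    exact this
  have h2 : Pm.det = 0 := by
    refine Polynomial.eq_zero_of_infinite_isRoot _ ?_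
    refine Set.Infinite.mono (s := {0}ᶜ) ?_ (Set.finite_singleton (0 : k)).infinite_compl
    intro θ hθ
    have hθ : θ ≠ 0 := hθ
    show Pm.det.eval θ = 0
    rw [h1]
    have h3 : (Matrix.of fun s t => (pe (φ t) s).eval θ) =
        Matrix.of fun s t => θ ^ wt N (φ₀ s) *
          B.toMatrix (fun t => q I (gθ N i j g θ) (φ t)) s t := by
      ext s t
      rw [Matrix.of_apply, Matrix.of_apply, hpe _ _ _ hθ]
      rfl
    rw [h3, Matrix.det_mul_column, ← Module.Basis.det_apply]
    have h4 : B.det (fun t => q I (gθ N i j g θ) (φ t)) = 0 := by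
      have h5 : e.det (fun t => q I (gθ N i j g θ) (φ t)) = 0 := by
        by_contra hcon
        have := hmax _ _ (gθ_det hij hg hθ) hcon
        omega
      rw [(B.det).eq_smul_basis_det e, AlternatingMap.smul_apply, h5, smul_zero]
    rw [h4, mul_zero]
  have h5 := h1 0
  rw [h2, Polynomial.eval_zero] at h5
  rw [h5]
  congr 1
  ext s t
  rw [Matrix.of_apply, Matrix.of_apply, hpe0]

/-- the inversion formula -/
lemma inversion (c r₀ : ℕ) :
    ∑ r ∈ range (c + 1), (-1 : k) ^ (c - r) * (c.choose r : k) * (r.choose r₀ : k) =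
      if r₀ = c then 1 else 0 := by
  have h1 : (Polynomial.X : Polynomial k) ^ c = ∑ r ∈ range (c + 1),
      (Polynomial.X + 1) ^ r * (-1) ^ (c - r) * (c.choose r : Polynomial k) := by
    rw [← add_pow]
    congr 1
    ring
  have h2 : ((Polynomial.X : Polynomial k) ^ c).coeff r₀ = (∑ r ∈ range (c + 1),
      (Polynomial.X + 1) ^ r * (-1) ^ (c - r) * (c.choose r : Polynomial k)).coeff r₀ :=
    congrArg (fun p => Polynomial.coeff p r₀) h1
  rw [Polynomial.coeff_X_pow, Polynomial.finsetSum_coeff] at h2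
  rw [h2]
  refine sum_congr rfl fun r _ => ?_
  have h3 : ((Polynomial.X : Polynomial k) + 1) ^ r * (-1) ^ (c - r) * (c.choose r : Polynomial k) =
      Polynomial.C ((-1) ^ (c - r) * (c.choose r : k)) * (Polynomial.X + 1) ^ r := by
    rw [map_mul, map_pow, map_neg, map_one, map_natCast]
    ring
  rw [h3, Polynomial.coeff_C_mul, Polynomial.coeff_X_add_one_pow]

lemma mvp_zero (v : Ex n) (i j : Fin n) : mvp v i j 0 = v := by
  funext t
  simp [mvp]

lemma wt_mvp {N : ℕ} (hN : 2 ≤ N) {i j : Fin n} (hij : i < j) (v : Ex n) (p : ℕ) (hp : 0 < p)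
    (hpv : p ≤ v j) : wt N (mvp v i j p) < wt N v := by
  have h1 : v = (v - Pi.single j p) + Pi.single j p := by
    funext t
    rw [Pi.add_apply, Pi.sub_apply]
    by_cases ht : t = j
    · subst ht
      rw [Pi.single_eq_same]
      omega
    · rw [Pi.single_eq_of_ne ht]
      rfl
  unfold mvp
  conv_rhs => rw [h1]
  rw [wt_add, wt_add, wt_single, wt_single]
  have h2 : N ^ (i : ℕ) < N ^ (j : ℕ) := Nat.pow_lt_pow_right (by omega) hij
  have h3 := Nat.mul_lt_mul_of_pos_left h2 hp
  omega

lemma det_col_ne {φ₀ : Fin δ → Ex n} (hφ₀ : Function.Injective φ₀) (hN : 2 ≤ N) {i j : Fin n}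
    (hij : i < j) : (Matrix.of fun s t => col k φ₀ i j (φ₀ t) s).det ≠ 0 := by
  classical
  intro hcon
  obtain ⟨x, hx, hx0⟩ := Matrix.exists_mulVec_eq_zero_iff.2 hcon
  obtain ⟨t₁, ht₁⟩ : ∃ t, x t ≠ 0 := by
    by_contra h
    push Not at h
    exact hx (funext h)
  obtain ⟨t₀, ht₀, hmax⟩ := (univ.filter fun t => x t ≠ 0).exists_max_image
    (fun t => wt N (φ₀ t)) ⟨t₁, by simpa using ht₁⟩
  have ht₀' : x t₀ ≠ 0 := by simpa using ht₀
  have h1 := congrFun hx0 t₀
  rw [Matrix.mulVec, dotProduct, sum_eq_single t₀] at h1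
  · rw [Matrix.of_apply] at h1
    have h2 : col k φ₀ i j (φ₀ t₀) t₀ = 1 := by
      unfold col
      rw [sum_eq_single 0]
      · rw [mvp_zero, if_pos rfl, Nat.choose_zero_right, Nat.cast_one]
      · intro p hp hp0
        rw [if_neg]
        intro h
        have := wt_mvp hN hij (φ₀ t₀) p (by omega) (by have := mem_range.1 hp; omega)
        rw [h] at this
        exact lt_irrefl _ this
      · intro h
        exact absurd (mem_range.2 (Nat.succ_pos _)) h
    rw [h2, one_mul] at h1
    exact ht₀' h1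
  · intro t _ ht
    by_cases hxt : x t = 0
    · rw [hxt, mul_zero]
    · have h2 := hmax t (by simpa using hxt)
      have h3 : col k φ₀ i j (φ₀ t) t₀ = 0 := by
        unfold col
        refine sum_eq_zero fun p hp => ?_
        rw [if_neg]
        intro h
        rcases Nat.eq_zero_or_pos p with hp0 | hp0
        · rw [hp0, mvp_zero] at h
          exact ht (hφ₀ h)
        · have := wt_mvp hN hij (φ₀ t) p hp0 (by have := mem_range.1 hp; omega)
          rw [h] at this
          omega
      rw [Matrix.of_apply, h3, zero_mul]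
  · intro h
    exact absurd (mem_univ _) h

/-- The complement of the generic initial exponents is stable under full moves. -/
lemma full_moves [Infinite k] {φ₀ : Fin δ → Ex n} (hN : 2 ≤ N) (hI : mm n k ^ N ≤ I)
    (hmax : ∀ (g : Matrix (Fin n) (Fin n) k) (φ : Fin δ → Ex n), g.det ≠ 0 →
        e.det (fun t => q I g (φ t)) ≠ 0 → tw N φ ≤ tw N φ₀)
    {g : Matrix (Fin n) (Fin n) k} (hg : g.det ≠ 0)
    (hD : e.det (fun t => q I g (φ₀ t)) ≠ 0) {i j : Fin n} (hij : i < j)
    {z : Ex n} (hz : z ∉ Set.range φ₀) : fm z i j ∉ Set.range φ₀ := by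
  rintro ⟨l, hl⟩
  have hinj := phi_injective hD
  apply det_col_ne (k := k) hinj hN hij
  -- the exponents between
  obtain ⟨c, hc⟩ : ∃ c, c = z j := ⟨_, rfl⟩
  let zr : ℕ → Ex n := fun r => mvp z i j (c - r)
  have hzr0 : zr 0 = φ₀ l := by
    rw [hl]
    funext t
    simp only [zr, mvp, fm, Nat.sub_zero, Pi.add_apply, Pi.sub_apply]
    by_cases h1 : t = i
    · subst h1
      rw [if_pos rfl, Pi.single_eq_same, Pi.single_eq_of_ne hij.ne, Nat.sub_zero, hc]
    · rw [if_neg h1, Pi.single_eq_of_ne h1]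
      by_cases h2 : t = j
      · subst h2
        rw [if_pos rfl, Pi.single_eq_same]
        omega
      · rw [if_neg h2, Pi.single_eq_of_ne h2]
        rfl
  have hzrc : zr c = z := by
    simp only [zr, Nat.sub_self]
    exact mvp_zero _ _ _
  have hzrj : ∀ r, r ≤ c → zr r j = r := by
    intro r hr
    simp only [zr, mvp, Pi.add_apply, Pi.sub_apply]
    rw [Pi.single_eq_same, Pi.single_eq_of_ne hij.ne']
    omega
  have hmv : ∀ r p, r ≤ c → p ≤ r → mvp (zr r) i j p = zr (r - p) := by
    intro r p hr hp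
    funext t
    simp only [zr, mvp, Pi.add_apply, Pi.sub_apply]
    by_cases h1 : t = i
    · subst h1
      simp only [Pi.single_eq_same, Pi.single_eq_of_ne hij.ne]
      omega
    · simp only [Pi.single_eq_of_ne h1]
      by_cases h2 : t = j
      · subst h2
        simp only [Pi.single_eq_same]
        omega
      · simp only [Pi.single_eq_of_ne h2]
        omega
  have hcol : ∀ r, r ≤ c → ∀ s, col k φ₀ i j (zr r) s =
      ∑ r₀ ∈ range (c + 1), (r.choose r₀ : k) * if zr r₀ = φ₀ s then 1 else 0 := by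
    intro r hr s
    unfold col
    rw [hzrj r hr]
    have h1 : ∑ r₀ ∈ range (c + 1), (r.choose r₀ : k) * (if zr r₀ = φ₀ s then 1 else 0) =
        ∑ r₀ ∈ range (r + 1), (r.choose r₀ : k) * if zr r₀ = φ₀ s then 1 else 0 := by
      symm
      refine sum_subset (range_mono (by omega)) fun r₀ _ h => ?_
      rw [Nat.choose_eq_zero_of_lt (by rw [mem_range] at h; omega), Nat.cast_zero, zero_mul]
    rw [h1, ← sum_range_reflect]
    refine sum_congr rfl fun p hp => ?_
    have hp' : p ≤ r := by rw [mem_range] at hp; omega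
    rw [show r + 1 - 1 - p = r - p by omega, hmv r (r - p) hr (Nat.sub_le _ _),
      Nat.sub_sub_self hp', Nat.choose_symm hp', mul_ite, mul_one, mul_zero]
  have hrel : ∑ r ∈ range (c + 1), ((-1 : k) ^ (c - r) * (c.choose r : k)) •
      (fun s => col k φ₀ i j (zr r) s) = 0 := by
    funext s
    rw [Finset.sum_apply, Pi.zero_apply]
    have h1 : ∀ r ∈ range (c + 1), (((-1 : k) ^ (c - r) * (c.choose r : k)) •
        (fun s => col k φ₀ i j (zr r) s)) s = ∑ r₀ ∈ range (c + 1),
          ((-1 : k) ^ (c - r) * (c.choose r : k) * (r.choose r₀ : k)) *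
            if zr r₀ = φ₀ s then 1 else 0 := by
      intro r hr
      rw [Pi.smul_apply, smul_eq_mul, hcol r (by rw [mem_range] at hr; omega), mul_sum]
      exact sum_congr rfl fun _ _ => by ring
    rw [sum_congr rfl h1, sum_comm]
    simp_rw [← sum_mul, inversion]
    refine sum_eq_zero fun r₀ _ => ?_
    by_cases h2 : r₀ = c
    · have h3 : (if zr r₀ = φ₀ s then (1 : k) else 0) = 0 := by
        rw [if_neg]
        rw [h2, hzrc]
        exact fun h => hz ⟨s, h.symm⟩
      rw [h3, mul_zero]
    · rw [if_neg h2, zero_mul]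
  -- the determinant as a function of the column `l`
  let A : Matrix (Fin δ) (Fin δ) k := Matrix.of fun s t => col k φ₀ i j (φ₀ t) s
  have hA : ∀ v : Ex n, (A.updateCol l fun s => col k φ₀ i j v s).det =
      (Matrix.of fun s t => col k φ₀ i j (Function.update φ₀ l v t) s).det := by
    intro v
    congr 1
    ext s t
    rw [Matrix.updateCol_apply, Matrix.of_apply]
    by_cases ht : t = l
    · subst ht
      rw [if_pos rfl, Function.update_self]
    · rw [if_neg ht, Function.update_of_ne ht]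
      rfl
  have h0 : (A.updateCol l (∑ r ∈ range (c + 1), ((-1 : k) ^ (c - r) * (c.choose r : k)) •
      (fun s => col k φ₀ i j (zr r) s))).det = 0 := by
    rw [hrel]
    exact Matrix.det_eq_zero_of_column_eq_zero l fun s => by
      rw [Matrix.updateCol_self]; rfl
  have h1 : ∀ (S : Finset ℕ) (f : ℕ → k) (u : ℕ → Fin δ → k),
      (A.updateCol l (∑ r ∈ S, f r • u r)).det = ∑ r ∈ S, f r * (A.updateCol l (u r)).det := by
    intro S f u
    classical
    induction S using Finset.induction_on with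
    | empty =>
      rw [sum_empty, sum_empty]
      exact Matrix.det_eq_zero_of_column_eq_zero l fun s => by
        rw [Matrix.updateCol_self]; rfl
    | insert a S ha ih =>
      rw [sum_insert ha, sum_insert ha, Matrix.det_updateCol_add, Matrix.det_updateCol_smul, ih]
  rw [h1, sum_range_succ'] at h0
  have h2 : ∑ r ∈ range c, ((-1 : k) ^ (c - (r + 1)) * (c.choose (r + 1) : k)) *
      (A.updateCol l (fun s => col k φ₀ i j (zr (r + 1)) s)).det = 0 := by
    refine sum_eq_zero fun r hr => ?_
    rw [hA, star hI hmax hg hD hij.ne, mul_zero]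
    have h3 := tw_update N φ₀ l (zr (r + 1))
    have hr' := mem_range.1 hr
    have h4 : wt N (φ₀ l) < wt N (zr (r + 1)) := by
      rw [← hzr0]
      have h5 := hmv (r + 1) (r + 1) (by omega) le_rfl
      rw [Nat.sub_self] at h5
      rw [← h5]
      exact wt_mvp hN hij _ _ (Nat.succ_pos _) (by rw [hzrj _ (by omega)])
    omega
  rw [h2, zero_add, hA, hzr0, Function.update_eq_self, Nat.choose_zero_right, Nat.cast_one,
    mul_one] at h0
  rcases mul_eq_zero.1 h0 with h | h
  · exact absurd h (pow_ne_zero _ (neg_ne_zero.2 one_ne_zero))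
  · exact h

end generic

end Pool.Agent.H61L
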