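import Mathlib
import Pool.Agent.H61L.Bor

/-!
# The determinants are polynomial functions of the matrix
-/

set_option autoImplicit false

namespace Pool.Agent.H61L

open Finset

variable {k : Type*} [Field k] {n : ℕ}

section generic

variable {I : Ideal (MvPowerSeries (Fin n) k)} {δ : ℕ}
  (e : Module.Basis (Fin δ) k (MvPowerSeries (Fin n) k ⧸ I))

/-- functions with polynomial coordinates -/
def PolyF (F : Matrix (Fin n) (Fin n) k → MvPowerSeries (Fin n) k ⧸ I) : Prop :=
  ∀ s, ∃ p : MvPolynomial (Fin n × Fin n) k, ∀ g : Matrix (Fin n) (Fin n) k,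
    e.repr (F g) s = MvPolynomial.eval (fun x => g x.1 x.2) p

lemma PolyF.const (x : MvPowerSeries (Fin n) k ⧸ I) : PolyF e (fun _ => x) := fun s =>
  ⟨MvPolynomial.C (e.repr x s), fun g => by rw [MvPolynomial.eval_C]⟩

lemma PolyF.mul {F G : Matrix (Fin n) (Fin n) k → MvPowerSeries (Fin n) k ⧸ I}
    (hF : PolyF e F) (hG : PolyF e G) : PolyF e (fun g => F g * G g) := by
  choose p hp using hF
  choose r hr using hG
  intro s
  refine ⟨∑ u, ∑ v, p u * r v * MvPolynomial.C (e.repr (e u * e v) s), fun g => ?_⟩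
  show e.repr (F g * G g) s = _
  conv_lhs => rw [← e.sum_repr (F g), ← e.sum_repr (G g), Finset.sum_mul_sum]
  simp only [map_sum, map_mul, MvPolynomial.eval_C]
  rw [Finsupp.finsetSum_apply]
  refine sum_congr rfl fun u _ => ?_
  rw [Finsupp.finsetSum_apply]
  refine sum_congr rfl fun v _ => ?_
  rw [smul_mul_smul_comm, map_smul, Finsupp.smul_apply, smul_eq_mul, hp, hr]

lemma PolyF.pow {F : Matrix (Fin n) (Fin n) k → MvPowerSeries (Fin n) k ⧸ I}
    (hF : PolyF e F) (c : ℕ) : PolyF e (fun g => F g ^ c) := by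
  induction c with
  | zero => simp only [pow_zero]; exact PolyF.const e 1
  | succ c ih => simp only [pow_succ]; exact ih.mul e hF

lemma PolyF.prod {ι : Type*} (S : Finset ι)
    {F : ι → Matrix (Fin n) (Fin n) k → MvPowerSeries (Fin n) k ⧸ I}
    (hF : ∀ i ∈ S, PolyF e (F i)) : PolyF e (fun g => ∏ i ∈ S, F i g) := by
  classical
  induction S using Finset.induction_on with
  | empty => simp only [prod_empty]; exact PolyF.const e 1
  | insert a S ha ih =>
    simp only [prod_insert ha]
    exact (hF a (mem_insert_self a S)).mul e (ih fun i hi => hF i (mem_insert_of_mem hi))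

lemma PolyF.lf (j : Fin n) : PolyF e (fun g => Ideal.Quotient.mk I (lf g j)) := by
  intro s
  refine ⟨∑ t, MvPolynomial.X (j, t) *
    MvPolynomial.C (e.repr (Ideal.Quotient.mk I (MvPowerSeries.X t)) s), fun g => ?_⟩
  have h : ∀ x : MvPowerSeries (Fin n) k, Ideal.Quotient.mk I x =
      (Ideal.Quotient.mkₐ k I).toLinearMap x := fun x => rfl
  show e.repr (Ideal.Quotient.mk I (∑ t, g j t • (MvPowerSeries.X t : MvPowerSeries (Fin n) k))) s
    = _
  rw [h, map_sum, map_sum, Finsupp.finsetSum_apply, map_sum]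
  refine sum_congr rfl fun t _ => ?_
  rw [map_smul, map_smul, Finsupp.smul_apply, smul_eq_mul, map_mul, MvPolynomial.eval_X,
    MvPolynomial.eval_C]
  rfl

lemma PolyF.q (a : Ex n) : PolyF e (fun g => q I g a) := by
  have h : (fun g => H61L.q I g a) = fun g : Matrix (Fin n) (Fin n) k =>
      ∏ j, Ideal.Quotient.mk I (H61L.lf g j) ^ a j := by
    funext g
    unfold H61L.q mono
    rw [map_prod]
    exact prod_congr rfl fun j _ => by rw [map_pow]
  rw [h]
  exact PolyF.prod e _ fun j _ => (PolyF.lf e j).pow e _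

lemma exists_poly (φ : Fin δ → Ex n) : ∃ P : MvPolynomial (Fin n × Fin n) k,
    ∀ g : Matrix (Fin n) (Fin n) k, MvPolynomial.eval (fun x => g x.1 x.2) P =
      g.det * e.det (fun t => H61L.q I g (φ t)) := by
  have h : ∀ t s, ∃ p : MvPolynomial (Fin n × Fin n) k, ∀ g : Matrix (Fin n) (Fin n) k,
    e.repr (H61L.q I g (φ t)) s = MvPolynomial.eval (fun x => g x.1 x.2) p :=
    fun t => PolyF.q e (φ t)
  choose p hp using h
  refine ⟨(Matrix.of fun i j => MvPolynomial.X (i, j)).det * (Matrix.of fun s t => p t s).det,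
    fun g => ?_⟩
  rw [map_mul, RingHom.map_det, RingHom.map_det, Module.Basis.det_apply]
  congr 2
  · ext i j
    simp
  · ext s t
    rw [Module.Basis.toMatrix_apply, hp]
    rfl

end generic

end Pool.Agent.H61L
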