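import Mathlib
import Pool.Agent.H61L.Pol

/-!
# Bounding the lengths by counting exponents
-/

set_option autoImplicit false

namespace Pool.Agent.H61L

open Finset MvPowerSeries

variable {k : Type*} [Field k] {n : ℕ}

/-- `u` is a leading exponent of `J` -/
def Ld (g : Matrix (Fin n) (Fin n) k) (N : ℕ) (J : Ideal (MvPowerSeries (Fin n) k)) (u : Ex n) :
    Prop :=
  ∃ h ∈ J, mono g u - h ∈ Submodule.span k {x | ∃ b, wt N u < wt N b ∧ x = mono g b}

lemma span_mul_mono {g : Matrix (Fin n) (Fin n) k} {N : ℕ} {u : Ex n}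
    {f : MvPowerSeries (Fin n) k}
    (hf : f ∈ Submodule.span k {x | ∃ b, wt N u < wt N b ∧ x = mono g b}) (v : Ex n) :
    f * mono g v ∈ Submodule.span k {x | ∃ b, wt N (u + v) < wt N b ∧ x = mono g b} := by
  have h := Submodule.mem_map_of_mem (f := LinearMap.mulRight k (mono g v)) hf
  rw [LinearMap.mulRight_apply, Submodule.map_span] at h
  refine Submodule.span_mono ?_ h
  rintro _ ⟨_, ⟨b, hb, rfl⟩, rfl⟩
  refine ⟨b + v, ?_, ?_⟩
  · rw [wt_add, wt_add]
    omega
  · rw [LinearMap.mulRight_apply, mono_add]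

lemma span_mul_span {g : Matrix (Fin n) (Fin n) k} {N : ℕ} {u v : Ex n}
    {f f' : MvPowerSeries (Fin n) k}
    (hf : f ∈ Submodule.span k {x | ∃ b, wt N u < wt N b ∧ x = mono g b})
    (hf' : f' ∈ Submodule.span k {x | ∃ b, wt N v < wt N b ∧ x = mono g b}) :
    f * f' ∈ Submodule.span k {x | ∃ b, wt N (u + v) < wt N b ∧ x = mono g b} := by
  have h := Submodule.mul_mem_mul hf hf'
  rw [Submodule.span_mul_span] at h
  refine Submodule.span_mono ?_ h
  rintro _ ⟨_, ⟨a, ha, rfl⟩, _, ⟨b, hb, rfl⟩, rfl⟩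
  refine ⟨a + b, ?_, (mono_add g a b).symm⟩
  rw [wt_add, wt_add]
  omega

lemma Ld.mul {g : Matrix (Fin n) (Fin n) k} {N : ℕ} {J J' : Ideal (MvPowerSeries (Fin n) k)}
    {u v : Ex n} (h : Ld g N J u) (h' : Ld g N J' v) : Ld g N (J * J') (u + v) := by
  obtain ⟨x, hx, hf⟩ := h
  obtain ⟨y, hy, hf'⟩ := h'
  refine ⟨x * y, Ideal.mul_mem_mul hx hy, ?_⟩
  have e : mono g (u + v) - x * y = (mono g u - x) * mono g v + (mono g v - y) * mono g u -
      (mono g u - x) * (mono g v - y) := by
    rw [mono_add]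
    ring
  rw [e]
  refine Submodule.sub_mem _ (Submodule.add_mem _ (span_mul_mono hf v) ?_) (span_mul_span hf hf')
  have := span_mul_mono hf' u
  rwa [add_comm v u] at this

lemma Ld.top (g : Matrix (Fin n) (Fin n) k) (N : ℕ) (u : Ex n) : Ld g N ⊤ u :=
  ⟨mono g u, trivial, by rw [sub_self]; exact zero_mem _⟩

lemma Ld.le {g : Matrix (Fin n) (Fin n) k} {N : ℕ} {J : Ideal (MvPowerSeries (Fin n) k)}
    {u v : Ex n} (h : Ld g N J u) (huv : u ≤ v) : Ld g N J v := by
  have h1 := h.mul (Ld.top g N (v - u))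
  rw [Ideal.mul_top] at h1
  have h2 : u + (v - u) = v := by
    funext t
    have h : u t ≤ v t := huv t
    rw [Pi.add_apply, Pi.sub_apply]
    omega
  rwa [h2] at h1

lemma Ld.mono {g : Matrix (Fin n) (Fin n) k} {N : ℕ} {J J' : Ideal (MvPowerSeries (Fin n) k)}
    {u : Ex n} (h : Ld g N J u) (hJ : J ≤ J') : Ld g N J' u := by
  obtain ⟨x, hx, hf⟩ := h
  exact ⟨x, hJ hx, hf⟩

lemma Ld.multiset {g : Matrix (Fin n) (Fin n) k} {N : ℕ} {J : Ideal (MvPowerSeries (Fin n) k)}
    {s : Multiset (Ex n)} (h : ∀ u ∈ s, Ld g N J u) : Ld g N (J ^ s.card) s.sum := by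
  induction s using Multiset.induction_on with
  | empty =>
    rw [Multiset.card_zero, pow_zero, Ideal.one_eq_top]
    exact Ld.top g N _
  | cons a s ih =>
    rw [Multiset.card_cons, Multiset.sum_cons, pow_succ']
    exact (h a (Multiset.mem_cons_self a s)).mul (ih fun u hu => h u (Multiset.mem_cons_of_mem hu))

lemma Ld.pw {g : Matrix (Fin n) (Fin n) k} {N : ℕ} {J : Ideal (MvPowerSeries (Fin n) k)}
    {M : Set (Ex n)} (h : ∀ u ∈ M, Ld g N J u) {s : ℕ} {z : Ex n} (hz : z ∈ Pw s M) :
    Ld g N (J ^ s) z := by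
  obtain ⟨t, h1, h2, h3⟩ := hz
  have := Ld.multiset (s := t) fun u hu => h u (h2 u hu)
  rw [h1] at this
  exact this.le h3

lemma length_le {J : Ideal (MvPowerSeries (Fin n) k)} {N N' : ℕ} (hN : 1 ≤ N)
    (hJ : mm n k ^ N' ≤ J) {g : Matrix (Fin n) (Fin n) k} (hg : g.det ≠ 0) {A : Set (Ex n)}
    (hA : Aᶜ.Finite) (hLd : ∀ z ∈ A, Ld g N J z) {κ : ℕ}
    (hlin : ∀ j : Fin n, κ ≤ j.val → lf g j ∈ J) :
    (Module.length (MvPowerSeries (Fin n) k) (MvPowerSeries (Fin n) k ⧸ J)).toNat ≤ cnt κ A := by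
  classical
  have hfin := finite_quot hJ
  rw [length_eq, Module.length_eq_finrank, ENat.toNat_natCast]
  have hS := cnt_finite hA κ
  let T : Submodule k (MvPowerSeries (Fin n) k ⧸ J) :=
    Submodule.span k (hS.toFinset.image (q J g) : Finset (MvPowerSeries (Fin n) k ⧸ J))
  have hT : ∀ m a, N' * N ^ n + 1 ≤ wt N a + m → q J g a ∈ T := by
    intro m
    induction m with
    | zero =>
      intro a ha
      rw [q_zero hJ g a]
      · exact zero_mem _
      · by_contra hcon
        push Not at hcon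
        have h1 := wt_le hN a
        have h2 := Nat.mul_le_mul_right (N ^ n) hcon.le
        omega
    | succ m ih =>
      intro a ha
      by_cases h1 : ∀ j : Fin n, κ ≤ j.val → a j = 0
      · by_cases h2 : a ∈ A
        · obtain ⟨x, hx, hf⟩ := hLd a h2
          have h3 : q J g a = (Ideal.Quotient.mkₐ k J).toLinearMap (mono g a - x) := by
            show Ideal.Quotient.mk J (mono g a) = Ideal.Quotient.mk J (mono g a - x)
            rw [map_sub, Ideal.Quotient.eq_zero_iff_mem.2 hx, sub_zero]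
          have h4 := Submodule.mem_map_of_mem (f := (Ideal.Quotient.mkₐ k J).toLinearMap) hf
          rw [h3]
          refine (?_ : Submodule.map _ _ ≤ T) h4
          rw [Submodule.map_span, Submodule.span_le]
          rintro _ ⟨_, ⟨b, hb, rfl⟩, rfl⟩
          exact ih b (by omega)
        · apply Submodule.subset_span
          rw [mem_coe]
          refine mem_image_of_mem _ ?_
          rw [Set.Finite.mem_toFinset]
          exact ⟨h2, h1⟩
      · push Not at h1
        obtain ⟨j, hj, haj⟩ := h1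
        have h2 : q J g a = 0 := by
          refine Ideal.Quotient.eq_zero_iff_mem.2 ?_
          have h3 : a = Pi.single j 1 + (a - Pi.single j 1) := by
            funext t
            rw [Pi.add_apply, Pi.sub_apply]
            by_cases ht : t = j
            · subst ht
              rw [Pi.single_eq_same]
              omega
            · rw [Pi.single_eq_of_ne ht]
              omega
          rw [h3, mono_add, mono_single]
          exact Ideal.mul_mem_right _ _ (hlin j hj)
        rw [h2]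
        exact zero_mem _
  have hT' : T = ⊤ := by
    rw [eq_top_iff, ← span_top hJ g hg, Submodule.span_le]
    rintro _ ⟨a, rfl⟩
    exact hT (N' * N ^ n + 1) a (by omega)
  rw [← finrank_top, ← hT']
  refine (finrank_span_finset_le_card _).trans (card_image_le.trans (le_of_eq ?_))
  unfold cnt
  rw [Set.ncard_eq_toFinset_card _ hS]

lemma length_finrank {J : Ideal (MvPowerSeries (Fin n) k)} {N' : ℕ}
    (hJ : mm n k ^ N' ≤ J) :
    (Module.length (MvPowerSeries (Fin n) k) (MvPowerSeries (Fin n) k ⧸ J)).toNat =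
      Module.finrank k (MvPowerSeries (Fin n) k ⧸ J) := by
  have hfin := finite_quot hJ
  rw [length_eq, Module.length_eq_finrank, ENat.toNat_natCast]

/-- The inequality for every power. -/
theorem main_ineq [Infinite k] {I : Ideal (MvPowerSeries (Fin n) k)} {N : ℕ} (hN : 2 ≤ N)
    (hI : mm n k ^ N ≤ I) :
    ∃ (P : MvPolynomial (Fin n × Fin n) k) (g₀ : Matrix (Fin n) (Fin n) k) (c₀ : ℕ),
      MvPolynomial.eval (fun x => g₀ x.1 x.2) P ≠ 0 ∧
      ∀ g : Matrix (Fin n) (Fin n) k, MvPolynomial.eval (fun x => g x.1 x.2) P ≠ 0 →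
        ∀ s : ℕ, 1 ≤ s → ∀ J : ℕ → Ideal (MvPowerSeries (Fin n) k), (∀ κ, I ^ s ≤ J κ) →
          (∀ κ, ∀ j : Fin n, κ ≤ j.val → lf g j ∈ J κ) →
          ∑ κ ∈ range (n + 1), cf ((s + c₀ : ℕ) : ℝ) n κ *
            ((Module.length (MvPowerSeries (Fin n) k)
              (MvPowerSeries (Fin n) k ⧸ J κ)).toNat : ℝ) ≤
          (Nat.factorial n : ℝ) * ((Module.length (MvPowerSeries (Fin n) k)
              (MvPowerSeries (Fin n) k ⧸ I)).toNat : ℝ) := by
  have hfin := finite_quot hI
  let e := Module.finBasis k (MvPowerSeries (Fin n) k ⧸ I)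
  obtain ⟨g₀, φ₀, hg₀, hD₀, hmax⟩ := exists_max e (by omega) hI
  obtain ⟨P, hP⟩ := exists_poly e φ₀
  let M : Set (Ex n) := (Set.range φ₀)ᶜ
  have hMc : Mᶜ.Finite := by
    rw [compl_compl]
    exact Set.finite_range φ₀
  have hMcard : Mᶜ.ncard = Module.finrank k (MvPowerSeries (Fin n) k ⧸ I) := by
    rw [compl_compl, ← Set.image_univ, Set.ncard_image_of_injective _ (phi_injective hD₀),
      Set.ncard_univ, Nat.card_eq_fintype_card, Fintype.card_fin]
  have hMB : ∀ a ∈ M, ∀ i j : Fin n, i < j → fm a i j ∈ M := fun a ha i j hij =>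
    full_moves hN hI hmax hg₀ hD₀ hij ha
  have hgood : Good (clo M) := good_clo hMc hMB
  obtain ⟨c₀, hc₀⟩ := Pw_clo hgood
  refine ⟨P, g₀, c₀, ?_, fun g hg s hs J hJ hlin => ?_⟩
  · rw [hP]
    exact mul_ne_zero hg₀ hD₀
  · rw [hP] at hg
    have hg1 : g.det ≠ 0 := left_ne_zero_of_mul hg
    have hD : e.det (fun t => q I g (φ₀ t)) ≠ 0 := right_ne_zero_of_mul hg
    have hLd : ∀ u ∈ M, Ld g N I u := by
      intro u hu
      have h1 := lead hI hmax hg1 hD hu
      have h2 : Submodule.span k {x | ∃ b, wt N u < wt N b ∧ x = q I g b} =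
          Submodule.map (Ideal.Quotient.mkₐ k I).toLinearMap
            (Submodule.span k {x | ∃ b, wt N u < wt N b ∧ x = mono g b}) := by
        rw [Submodule.map_span]
        congr 1
        ext x
        constructor
        · rintro ⟨b, hb, rfl⟩
          exact ⟨mono g b, ⟨b, hb, rfl⟩, rfl⟩
        · rintro ⟨_, ⟨b, hb, rfl⟩, rfl⟩
          exact ⟨b, hb, rfl⟩
      rw [h2] at h1
      obtain ⟨f, hf, hf'⟩ := h1
      refine ⟨mono g u - f, ?_, ?_⟩
      · have h3 : Ideal.Quotient.mk I f = Ideal.Quotient.mk I (mono g u) := hf'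
        exact Ideal.Quotient.eq.1 h3.symm
      · rw [sub_sub_cancel]
        exact hf
    have h1 : ∀ κ, (Module.length (MvPowerSeries (Fin n) k)
        (MvPowerSeries (Fin n) k ⧸ J κ)).toNat ≤ cnt κ (Pw (s + c₀) (clo M)) := by
      intro κ
      have h2 : mm n k ^ (N * s) ≤ J κ := by
        rw [pow_mul]
        exact (Ideal.pow_right_mono hI s).trans (hJ κ)
      refine (length_le (N := N) (by omega) h2 hg1 (Pw_cofin hMc s)
        (fun z hz => (Ld.pw hLd hz).mono (hJ κ)) (hlin κ)).trans ?_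
      exact cnt_anti (Pw_cofin hgood.cofin _) (hc₀ s) κ
    have h3 := comb (s + c₀) (by omega) n (clo M) hgood
    have h4 : cnt n (clo M) ≤ (Module.length (MvPowerSeries (Fin n) k)
        (MvPowerSeries (Fin n) k ⧸ I)).toNat := by
      rw [length_finrank hI, ← hMcard, ← cnt_full]
      exact cnt_anti hMc (subset_clo M) n
    refine (sum_le_sum fun κ _ => ?_).trans (h3.trans ?_)
    · refine mul_le_mul_of_nonneg_left (by exact_mod_cast h1 κ) (cf_nonneg ?_ _ _)
      exact_mod_cast (by omega : 1 ≤ s + c₀)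
    · refine mul_le_mul_of_nonneg_left (by exact_mod_cast h4) (by positivity)

end Pool.Agent.H61L
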