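import Mathlib
import Pool.Agent.H61L.Bnd

/-!
# Passing to the limit
-/

set_option autoImplicit false

namespace Pool.Agent.H61L

open Finset Filter

/-- extend by a row -/
def ext {k : Type*} {d : ℕ} (v : Fin (d + 1) → k) (c : Fin d → Fin (d + 1) → k) :
    Matrix (Fin (d + 1)) (Fin (d + 1)) k :=
  fun j => (Fin.snoc c v : Fin (d + 1) → Fin (d + 1) → k) (Fin.rev j)

lemma ext_castSucc {k : Type*} {d : ℕ} (v : Fin (d + 1) → k) (c : Fin d → Fin (d + 1) → k)
    (m : Fin d) : ext v c (Fin.rev m.castSucc) = c m := by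
  unfold ext
  rw [Fin.rev_rev, Fin.snoc_castSucc]

lemma ext_zero {k : Type*} {d : ℕ} (v : Fin (d + 1) → k) (c : Fin d → Fin (d + 1) → k) :
    ext v c 0 = v := by
  unfold ext
  rw [Fin.rev_zero, Fin.snoc_last]

lemma ext_self {k : Type*} {d : ℕ} (g : Matrix (Fin (d + 1)) (Fin (d + 1)) k) :
    ext (g 0) (fun m => g (Fin.rev m.castSucc)) = g := by
  funext j
  obtain ⟨i, rfl⟩ : ∃ i, j = Fin.rev i := ⟨Fin.rev j, (Fin.rev_rev j).symm⟩
  refine Fin.lastCases ?_ (fun m => ?_) i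
  · rw [Fin.rev_last, ext_zero]
  · rw [ext_castSucc]

/-- restrict a polynomial in the entries to the matrices with a given row -/
lemma exists_restrict {k : Type*} [Field k] {d : ℕ} (v : Fin (d + 1) → k)
    (P : MvPolynomial (Fin (d + 1) × Fin (d + 1)) k) :
    ∃ P' : MvPolynomial (Fin d × Fin (d + 1)) k, ∀ c : Fin d → Fin (d + 1) → k,
      MvPolynomial.eval (fun p => c p.1 p.2) P' =
        MvPolynomial.eval (fun x => ext v c x.1 x.2) P := by
  refine ⟨MvPolynomial.bind₁ (fun x => ext (fun t => MvPolynomial.C (v t))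
    (fun m t => MvPolynomial.X (m, t)) x.1 x.2) P, fun c => ?_⟩
  have h := MvPolynomial.eval₂Hom_bind₁ (RingHom.id k) (fun p : Fin d × Fin (d + 1) => c p.1 p.2)
    (fun x : Fin (d + 1) × Fin (d + 1) => ext (fun t => MvPolynomial.C (v t))
    (fun m t => MvPolynomial.X (m, t)) x.1 x.2) P
  have h2 : (fun x : Fin (d + 1) × Fin (d + 1) =>
      MvPolynomial.eval₂Hom (RingHom.id k) (fun p : Fin d × Fin (d + 1) => c p.1 p.2)
        (ext (fun t => MvPolynomial.C (v t))
          (fun m t => (MvPolynomial.X (m, t) : MvPolynomial (Fin d × Fin (d + 1)) k)) x.1 x.2)) =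
      fun x => ext v c x.1 x.2 := by
    funext ⟨j, t⟩
    obtain ⟨i, rfl⟩ : ∃ i, j = Fin.rev i := ⟨Fin.rev j, (Fin.rev_rev j).symm⟩
    refine Fin.lastCases ?_ (fun m => ?_) i
    · simp only [Fin.rev_last, ext_zero]
      simp
    · simp only [ext_castSucc]
      simp
  rw [h2] at h
  exact h

lemma tendsto_term (c₀ n κ : ℕ) (lam : ℕ → ℝ) (e : ℝ)
    (h : Tendsto (fun s : ℕ => ((Nat.factorial κ : ℝ) * lam s) / (s : ℝ) ^ κ) atTop (nhds e)) :
    Tendsto (fun s : ℕ => cf ((s + c₀ : ℕ) : ℝ) n κ * lam s) atTop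
      (nhds (((ascPochhammer ℕ n).coeff κ : ℝ) * e)) := by
  have h1 := cf_tendsto c₀ n κ
  have h2 : Tendsto (fun s : ℕ => ((s : ℝ) / ((s : ℝ) + (c₀ : ℝ))) ^ κ) atTop (nhds (1 ^ κ)) :=
    (tendsto_natCast_div_add_atTop (c₀ : ℝ)).pow κ
  have h3 := ((h1.mul h2).mul h).const_mul ((Nat.factorial κ : ℝ)⁻¹)
  have h4 : ((Nat.factorial κ : ℝ)) ≠ 0 := by positivity
  refine (Tendsto.congr' ?_ h3).trans (le_of_eq ?_)
  · filter_upwards [eventually_ge_atTop 1] with s hs
    have hs' : (0 : ℝ) < s := by exact_mod_cast hs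
    have hs2 : (0 : ℝ) < (s : ℝ) + (c₀ : ℝ) := by positivity
    push_cast
    rw [div_pow]
    field_simp
  · congr 1
    rw [one_pow, mul_one]
    field_simp

end Pool.Agent.H61L
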